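import Pool.Agent.BEL.Defs3
import Pool.Agent.Helper69_BEL.POL

/-!
# Squad BEL, row FIN3: the result for all energy solutions, from the core and the PDE part
-/

namespace Pool.Agent.BEL.H65

open Set Filter Topology MeasureTheory
open scoped InnerProductSpace ENNReal
open Pool.Agent.BE01

noncomputable section

variable {d : ℕ}

lemma loglaw_congr {A B : Set ℝ} (h : ∀ t, 0 ≤ t → (t ∈ A ↔ t ∈ B)) (T : ℝ) (hT : 1 ≤ T) :
    ∫ t in (1:ℝ)..T, A.indicator (fun s => s⁻¹) t = ∫ t in (1:ℝ)..T, B.indicator (fun s => s⁻¹) t := by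
  refine intervalIntegral.integral_congr fun t ht => ?_
  rw [uIcc_of_le hT] at ht
  have h0 : 0 ≤ t := by linarith [ht.1]
  show A.indicator (fun s => s⁻¹) t = B.indicator (fun s => s⁻¹) t
  by_cases hA : t ∈ A
  · rw [indicator_of_mem hA, indicator_of_mem ((h t h0).1 hA)]
  · rw [indicator_of_notMem hA, indicator_of_notMem fun hB => hA ((h t h0).2 hB)]

lemma lowLog_congr {A B : Set ℝ} {g : ℝ} (h : ∀ t, 0 ≤ t → (t ∈ A ↔ t ∈ B)) (hA : LowLog A g) :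
    LowLog B g := by
  unfold LowLog at hA ⊢
  filter_upwards [hA, eventually_ge_atTop (1 : ℝ)] with T h1 h2
  rw [← loglaw_congr h T h2]
  exact h1

lemma uppLog_congr {A B : Set ℝ} {g : ℝ} (h : ∀ t, 0 ≤ t → (t ∈ A ↔ t ∈ B)) (hA : UppLog A g) :
    UppLog B g := by
  unfold UppLog at hA ⊢
  refine (hA.and_eventually (eventually_ge_atTop (1 : ℝ))).mono fun T hT => ?_
  rw [← loglaw_congr h T hT.2]
  exact hT.1

lemma energy_nonneg' (Ω : Set (En d)) (v : ℝ → Lp ℝ 2 (mu Ω)) (G : ℝ → Lp (En d) 2 (mu Ω))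
    (t : ℝ) : 0 ≤ energy Ω v G t := by
  unfold energy
  exact integral_nonneg fun x => by positivity

lemma energy_anti {Ω : Set (En d)} {a α : ℝ} {u v : ℝ → Lp ℝ 2 (mu Ω)}
    {G : ℝ → Lp (En d) 2 (mu Ω)} (h : EnSol Ω a α u v G) :
    AntitoneOn (fun t => energy Ω v G t) (Ici 0) := by
  intro s hs t _ hst
  have h1 := le_self_add.trans (h.en s t hs hst)
  exact (ENNReal.ofReal_le_ofReal_iff (energy_nonneg' Ω v G s)).1 h1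

lemma fin3_aux (hTrl : TrlStmt) (hTrc : TrcStmt) (hWpc : WpcStmt) (hCore : Core2Stmt)
    (Ω : Set (En d)) (a α : ℝ) (hd : 0 < d)
    (hΩ : Dom Ω) (ha : 0 < a) (hα : 0 < α) (hlt : ((d : ℝ) - 2) * α < 4)
    (ι : VV Ω →L[ℝ] Lp ℝ 2 (mu Ω)) (hE : Emb2 Ω ι) (hG : Grf Ω ι)
    (b : HilbertBasis ℕ ℝ (Lp ℝ 2 (mu Ω))) (e : HilbertBasis ℕ ℝ (VV Ω)) (om : ℕ → ℝ)
    (hS : Spec Ω ι b e om) (hI : Inp (mu Ω) α b om) :
    (∀ (u₀ v₀ : Lp ℝ 2 (mu Ω)) (G₀ : Lp (En d) 2 (mu Ω)), (u₀, G₀) ∈ H10 Ω →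
      ∃ (u v : ℝ → Lp ℝ 2 (mu Ω)) (G : ℝ → Lp (En d) 2 (mu Ω)), EnSol Ω a α u v G ∧
        u 0 = u₀ ∧ G 0 = G₀ ∧ v 0 = v₀) ∧
    (∀ (u v u' v' : ℝ → Lp ℝ 2 (mu Ω)) (G G' : ℝ → Lp (En d) 2 (mu Ω)), EnSol Ω a α u v G →
      EnSol Ω a α u' v' G' →
      (∀ s t, 0 ≤ s → s ≤ t →
        ‖G t - G' t‖ ^ 2 + ‖v t - v' t‖ ^ 2 ≤ ‖G s - G' s‖ ^ 2 + ‖v s - v' s‖ ^ 2) ∧
      (G 0 = G' 0 → v 0 = v' 0 → ∀ t, 0 ≤ t → u t = u' t ∧ G t = G' t ∧ v t = v' t)) ∧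
    ∃ c C g K : ℝ, 0 < c ∧ 0 < C ∧ 0 < g ∧ 0 < K ∧
      (∀ (u₀ v₀ : Lp ℝ 2 (mu Ω)) (G₀ : Lp (En d) 2 (mu Ω)) (ε : ℝ), (u₀, G₀) ∈ H10 Ω → 0 < ε →
        ∃ (u₁ v₁ : Lp ℝ 2 (mu Ω)) (G₁ : Lp (En d) 2 (mu Ω)), (u₁, G₁) ∈ H10 Ω ∧
          ‖u₁ - u₀‖ < ε ∧ ‖G₁ - G₀‖ < ε ∧ ‖v₁ - v₀‖ < ε ∧
          ∀ (u v : ℝ → Lp ℝ 2 (mu Ω)) (G : ℝ → Lp (En d) 2 (mu Ω)), EnSol Ω a α u v G →
            G 0 = G₁ → v 0 = v₁ →
            (∃ M : ℝ, ∀ t, 0 ≤ t → energy Ω v G t ≤ M * (1 + t) ^ (-(2 / α))) ∧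
            (∃ m : ℝ, 0 < m ∧ ∀ t, 0 ≤ t → m * (1 + t) ^ (-K) ≤ energy Ω v G t) ∧
            (∀ᶠ t : ℝ in atTop, energy Ω v G t ≤ C * t ^ (-(2 / α))) ∧
            LowLog {t | c * t ^ (-(2 / α)) ≤ energy Ω v G t} g) ∧
      ∃ D : Set (Lp ℝ 2 (mu Ω) × Lp (En d) 2 (mu Ω) × Lp ℝ 2 (mu Ω)), IsGδ D ∧
        D ⊆ {P | (P.1, P.2.1) ∈ H10 Ω} ∧ {P | (P.1, P.2.1) ∈ H10 Ω} ⊆ closure D ∧
        ∀ (u v : ℝ → Lp ℝ 2 (mu Ω)) (G : ℝ → Lp (En d) 2 (mu Ω)), EnSol Ω a α u v G →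
          (u 0, G 0, v 0) ∈ D →
          (∀ᶠ t : ℝ in atTop, energy Ω v G t ≤ C * t ^ (-(2 / α))) ∧
          UppLog {t | c * t ^ (-(2 / α)) ≤ energy Ω v G t} g := by
  obtain ⟨c, C, g, hc, hC, hg, h1, D0, hD0, hDd, h2⟩ := hCore (En d) (mu Ω) a α b om ha hα hI
  obtain ⟨hex, hct⟩ := hWpc (En d) (mu Ω) a α b om ha hα hI
  have hUsub : ∀ x y : Lp ℝ 2 (mu Ω), ‖((UU b e x : VV Ω) : Lp (En d) 2 (mu Ω)) -
      ((UU b e y : VV Ω) : Lp (En d) 2 (mu Ω))‖ = ‖x - y‖ := by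
    intro x y
    have h3 : ‖UU b e x - UU b e y‖ = ‖x - y‖ := by
      rw [← map_sub, LinearIsometryEquiv.norm_map]
    exact h3
  have hUinj : ∀ x y : Lp ℝ 2 (mu Ω), ((UU b e x : VV Ω) : Lp (En d) 2 (mu Ω)) =
      ((UU b e y : VV Ω) : Lp (En d) 2 (mu Ω)) → x = y := by
    intro x y h
    exact (UU b e).injective (Subtype.ext h)
  -- core solutions with equal data
  have hcore_eq : ∀ z1 z2 w1 w2 : ℝ → Lp ℝ 2 (mu Ω), CoreSol (mu Ω) a α b om z1 z2 →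
      CoreSol (mu Ω) a α b om w1 w2 → z1 0 = w1 0 → z2 0 = w2 0 → ∀ t, 0 ≤ t →
      z1 t = w1 t ∧ z2 t = w2 t := by
    intro z1 z2 w1 w2 hz hw e1 e2 t ht
    have h3 := hct z1 z2 w1 w2 hz hw 0 t le_rfl ht
    rw [e1, e2, sub_self, sub_self, norm_zero] at h3
    have h4 : ‖z1 t - w1 t‖ ^ 2 = 0 := by nlinarith [sq_nonneg ‖z1 t - w1 t‖, sq_nonneg ‖z2 t - w2 t‖]
    have h5 : ‖z2 t - w2 t‖ ^ 2 = 0 := by nlinarith [sq_nonneg ‖z1 t - w1 t‖, sq_nonneg ‖z2 t - w2 t‖]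
    rw [sq_eq_zero_iff, norm_eq_zero, sub_eq_zero] at h4 h5
    exact ⟨h4, h5⟩
  -- the energy of every energy solution with the data of a core solution
  have hsame : ∀ z1 z2 : ℝ → Lp ℝ 2 (mu Ω), CoreSol (mu Ω) a α b om z1 z2 →
      ∀ (u v : ℝ → Lp ℝ 2 (mu Ω)) (G : ℝ → Lp (En d) 2 (mu Ω)), EnSol Ω a α u v G →
      G 0 = ((UU b e (z1 0) : VV Ω) : Lp (En d) 2 (mu Ω)) → v 0 = z2 0 →
      ∀ t, 0 ≤ t → energy Ω v G t = enr (mu Ω) z1 z2 t := by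
    intro z1 z2 hz u v G hs hG0 hv0 t ht
    obtain ⟨w1, hw, hw2, hw3⟩ := hTrc d Ω ι b e om a α u v G hd hΩ hE hG hS ha hα hlt hs
    have h3 : w1 0 = z1 0 := by
      apply hUinj
      rw [← (hw2 0 le_rfl).2, hG0]
    obtain ⟨h4, h5⟩ := hcore_eq w1 v z1 z2 hw hz h3 hv0 t ht
    rw [hw3 t ht]
    unfold enr
    rw [h4, h5]
  refine ⟨?_, ?_, c, C, g, 4 / (α * g), hc, hC, hg, by positivity, ?_, ?_⟩
  · intro u0 v0 G0 hu
    obtain ⟨hGV, hu0⟩ := (hG u0 G0).1 hu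
    obtain ⟨z1, z2, hz, hz1, hz2⟩ := hex ((UU b e).symm ⟨G0, hGV⟩) v0
    obtain ⟨hsol, -⟩ := hTrl d Ω ι b e om a α z1 z2 hd hΩ hE hG hS ha hα hlt hz
    have h3 : UU b e (z1 0) = ⟨G0, hGV⟩ := by
      rw [hz1]
      exact (UU b e).apply_symm_apply _
    refine ⟨_, _, _, hsol, ?_, ?_, hz2⟩
    · show ι (UU b e (z1 0)) = u0
      rw [h3, hu0]
    · show ((UU b e (z1 0) : VV Ω) : Lp (En d) 2 (mu Ω)) = G0
      rw [h3]
  · intro u v u' v' G G' hs hs'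
    obtain ⟨w, hw, hw2, -⟩ := hTrc d Ω ι b e om a α u v G hd hΩ hE hG hS ha hα hlt hs
    obtain ⟨w', hw', hw2', -⟩ := hTrc d Ω ι b e om a α u' v' G' hd hΩ hE hG hS ha hα hlt hs'
    constructor
    · intro s t h0 hst
      have h3 := hct w v w' v' hw hw' s t h0 hst
      rw [(hw2 t (h0.trans hst)).2, (hw2' t (h0.trans hst)).2, (hw2 s h0).2, (hw2' s h0).2, hUsub,
        hUsub]
      exact h3
    · intro e1 e2 t ht
      have h3 : w 0 = w' 0 := by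
        apply hUinj
        rw [← (hw2 0 le_rfl).2, ← (hw2' 0 le_rfl).2, e1]
      obtain ⟨h4, h5⟩ := hcore_eq w v w' v' hw hw' h3 e2 t ht
      rw [(hw2 t ht).1, (hw2' t ht).1, (hw2 t ht).2, (hw2' t ht).2, h4]
      exact ⟨rfl, rfl, h5⟩
  · intro u0 v0 G0 ε hu hε
    obtain ⟨hGV, hu0⟩ := (hG u0 G0).1 hu
    have hn : 0 < ‖ι‖ + 1 := by positivity
    have hε' : 0 < min ε (ε / (‖ι‖ + 1)) := lt_min hε (by positivity)
    obtain ⟨z1, z2, hz, hx, hy, hM, hCt, hlog⟩ :=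
      h1 ((UU b e).symm ⟨G0, hGV⟩) v0 (min ε (ε / (‖ι‖ + 1))) hε'
    have hx2 : ‖UU b e (z1 0) - ⟨G0, hGV⟩‖ < min ε (ε / (‖ι‖ + 1)) := by
      have h3 : UU b e (z1 0) - ⟨G0, hGV⟩ = UU b e (z1 0 - (UU b e).symm ⟨G0, hGV⟩) := by
        rw [map_sub, LinearIsometryEquiv.apply_symm_apply]
      rw [h3, LinearIsometryEquiv.norm_map]
      exact hx
    refine ⟨ι (UU b e (z1 0)), z2 0, ((UU b e (z1 0) : VV Ω) : Lp (En d) 2 (mu Ω)), ?_, ?_, ?_,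
      ?_, ?_⟩
    · exact (hG _ _).2 ⟨(UU b e (z1 0)).2, rfl⟩
    · rw [hu0, ← map_sub]
      have h4 : ‖ι‖ * ‖UU b e (z1 0) - ⟨G0, hGV⟩‖ ≤ (‖ι‖ + 1) * ‖UU b e (z1 0) - ⟨G0, hGV⟩‖ :=
        mul_le_mul_of_nonneg_right (by linarith) (norm_nonneg _)
      have h5 : (‖ι‖ + 1) * ‖UU b e (z1 0) - ⟨G0, hGV⟩‖ < (‖ι‖ + 1) * (ε / (‖ι‖ + 1)) :=
        mul_lt_mul_of_pos_left (lt_of_lt_of_le hx2 (min_le_right _ _)) hn
      have h6 : (‖ι‖ + 1) * (ε / (‖ι‖ + 1)) = ε := by field_simp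
      exact lt_of_le_of_lt (ι.le_opNorm _) (lt_of_le_of_lt h4 (h5.trans_eq h6))
    · exact lt_of_lt_of_le hx2 (min_le_left _ _)
    · exact lt_of_lt_of_le hy (min_le_left _ _)
    · intro u v G hs hG0 hv0
      have hen := hsame z1 z2 hz u v G hs hG0 hv0
      have hlow : LowLog {t | c * t ^ (-(2 / α)) ≤ energy Ω v G t} g := by
        refine lowLog_congr (fun t ht => ?_) hlog
        rw [Set.mem_ofPred_eq, Set.mem_ofPred_eq, hen t ht]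
      refine ⟨?_, ?_, ?_, hlow⟩
      · obtain ⟨M, hM⟩ := hM
        exact ⟨M, fun t ht => by rw [hen t ht]; exact hM t ht⟩
      · exact H69.pol α c g hα hc hg (fun t => energy Ω v G t) (energy_anti hs) hlow
      · filter_upwards [hCt, eventually_ge_atTop (0 : ℝ)] with t ht h0
        rw [hen t h0]
        exact ht
  · have hcs : CompleteSpace (VV Ω) :=
      (Submodule.isClosed_topologicalClosure _).completeSpace_coe
    let Q : Lp (En d) 2 (mu Ω) →L[ℝ] VV Ω := (VV Ω).orthogonalProjectionOnto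
    have hQ : ∀ G : VV Ω, Q (G : Lp (En d) 2 (mu Ω)) = G :=
      fun G => Submodule.orthogonalProjectionOnto_mem_subspace_eq_self G
    let Ψ : Lp ℝ 2 (mu Ω) × Lp (En d) 2 (mu Ω) × Lp ℝ 2 (mu Ω) → Lp ℝ 2 (mu Ω) × Lp ℝ 2 (mu Ω) :=
      fun P => ((UU b e).symm (Q P.2.1), P.2.2)
    have hΨ : Continuous Ψ := by
      refine Continuous.prodMk ?_ (continuous_snd.comp continuous_snd)
      exact (UU b e).symm.continuous.comp (Q.continuous.comp (continuous_fst.comp continuous_snd))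
    let Θ : Lp ℝ 2 (mu Ω) × Lp ℝ 2 (mu Ω) → Lp ℝ 2 (mu Ω) × Lp (En d) 2 (mu Ω) × Lp ℝ 2 (mu Ω) :=
      fun x => (ι (UU b e x.1), ((UU b e x.1 : VV Ω) : Lp (En d) 2 (mu Ω)), x.2)
    have hΘ : Continuous Θ := by
      have h3 : Continuous fun x : Lp ℝ 2 (mu Ω) × Lp ℝ 2 (mu Ω) => UU b e x.1 :=
        (UU b e).continuous.comp continuous_fst
      exact (ι.continuous.comp h3).prodMk ((continuous_subtype_val.comp h3).prodMk continuous_snd)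
    have hΨΘ : ∀ x, Ψ (Θ x) = x := by
      intro x
      show ((UU b e).symm (Q ((UU b e x.1 : VV Ω) : Lp (En d) 2 (mu Ω))), x.2) = x
      rw [hQ, LinearIsometryEquiv.symm_apply_apply]
    have hΘΨ : ∀ P, (P.1, P.2.1) ∈ H10 Ω → Θ (Ψ P) = P := by
      rintro ⟨u, G, v⟩ hP
      obtain ⟨hGV, hu⟩ := (hG u G).1 hP
      have h3 : Q G = ⟨G, hGV⟩ := hQ ⟨G, hGV⟩
      show (ι (UU b e ((UU b e).symm (Q G))),
        ((UU b e ((UU b e).symm (Q G)) : VV Ω) : Lp (En d) 2 (mu Ω)), v) = (u, G, v)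
      rw [LinearIsometryEquiv.apply_symm_apply, h3, ← hu]
    have hΘH : ∀ x, ((Θ x).1, (Θ x).2.1) ∈ H10 Ω := by
      intro x
      exact (hG _ _).2 ⟨(UU b e x.1).2, rfl⟩
    refine ⟨{P | (P.1, P.2.1) ∈ H10 Ω} ∩ Ψ ⁻¹' D0, ?_, inter_subset_left, ?_, ?_⟩
    · have hcl : IsClosed {P : Lp ℝ 2 (mu Ω) × Lp (En d) 2 (mu Ω) × Lp ℝ 2 (mu Ω) |
          (P.1, P.2.1) ∈ H10 Ω} :=
        isClosed_closure.preimage (continuous_fst.prodMk (continuous_fst.comp continuous_snd))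
      exact hcl.isGδ.inter (hD0.preimage hΨ)
    · intro P hP
      have h3 : Θ '' D0 ⊆ {P | (P.1, P.2.1) ∈ H10 Ω} ∩ Ψ ⁻¹' D0 := by
        rintro _ ⟨x, hx, rfl⟩
        refine ⟨hΘH x, ?_⟩
        show Ψ (Θ x) ∈ D0
        rw [hΨΘ]
        exact hx
      have h4 : Ψ P ∈ closure D0 := by rw [hDd.closure_eq]; trivial
      have h5 : Θ (Ψ P) ∈ closure (Θ '' D0) :=
        image_closure_subset_closure_image hΘ ⟨Ψ P, h4, rfl⟩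
      rw [hΘΨ P hP] at h5
      exact closure_mono h3 h5
    · rintro u v G hs ⟨hP1, hP2⟩
      obtain ⟨z1, z2, hz, hz0, hCt, hfr⟩ := h2 (Ψ (u 0, G 0, v 0)) hP2
      have h6 : Θ (z1 0, z2 0) = (u 0, G 0, v 0) := by rw [hz0]; exact hΘΨ _ hP1
      have h7 : ((UU b e (z1 0) : VV Ω) : Lp (En d) 2 (mu Ω)) = G 0 :=
        congrArg (fun P => P.2.1) h6
      have h8 : z2 0 = v 0 := congrArg (fun P => P.2.2) h6
      have hen := hsame z1 z2 hz u v G hs h7.symm h8.symm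
      refine ⟨?_, ?_⟩
      · filter_upwards [hCt, eventually_ge_atTop (0 : ℝ)] with t ht h0
        rw [hen t h0]
        exact ht
      · refine uppLog_congr (fun t ht => ?_) hfr
        rw [Set.mem_ofPred_eq, Set.mem_ofPred_eq, hen t ht]

/-- FIN3. -/
theorem fin3 (hEmp : EmpStmt) (hEig : EigStmt) (hInp : InpStmt) (hTrl : TrlStmt) (hTrc : TrcStmt)
    (hWpc : WpcStmt) (hCore : Core2Stmt) : Fin3Stmt := by
  intro d Ω a α hd hΩ ha hα hlt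
  obtain ⟨ι, hE, hG⟩ := hEmp d Ω hd hΩ
  obtain ⟨b, e, om, hS⟩ := hEig d Ω ι hd hΩ hE
  exact fin3_aux hTrl hTrc hWpc hCore Ω a α hd hΩ ha hα hlt ι hE hG b e om hS
    (hInp d Ω ι b e om α hd hΩ hE hS hα hlt)

end

end Pool.Agent.BEL.H65
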