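import Pool.Agent.BEL.Defs3
import Pool.Agent.Helper62_BEL.TRL
import Pool.Agent.Helper70_BEL.TRW
import Pool.Agent.Helper91_BE01.EMB

/-!
# Squad BEL, row TRC: every energy solution is given by a core solution
-/

namespace Pool.Agent.BEL.H65

open Set Filter Topology MeasureTheory
open scoped InnerProductSpace ENNReal
open Pool.Agent.BE01

noncomputable section

variable {d : ℕ}

/-- The extended weak equation: both sides are continuous in the gradient. -/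
lemma trc_ext (hLpe : LpeStmt) (Ω : Set (En d)) (ι : VV Ω →L[ℝ] Lp ℝ 2 (mu Ω))
    (a al : ℝ) (u v : ℝ → Lp ℝ 2 (mu Ω)) (G : ℝ → Lp (En d) 2 (mu Ω)) (hd : 0 < d) (hΩ : Dom Ω)
    (hE : Emb2 Ω ι) (ha : 0 < a) (hal : 0 < al) (hdal : ((d : ℝ) - 2) * al < 4)
    (hs : EnSol Ω a al u v G) (Gs : ℝ → VV Ω)
    (hGs : ∀ t, 0 ≤ t → ((Gs t : VV Ω) : Lp (En d) 2 (mu Ω)) = G t)
    (hGc : ContinuousOn Gs (Ici 0)) (t : ℝ) (ht : 0 ≤ t) (P : VV Ω) :
    IntervalIntegrable (fun s => ∫ x, gf a al (v s x) * ι P x ∂(mu Ω)) volume 0 t ∧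
    ⟪v t, ι P⟫_ℝ = ⟪v 0, ι P⟫_ℝ -
      ∫ s in (0:ℝ)..t, (⟪Gs s, P⟫_ℝ + ∫ x, gf a al (v s x) * ι P x ∂(mu Ω)) := by
  have := H70.finMu hΩ
  obtain ⟨C, hC, hCb⟩ := hLpe d Ω ι (al + 2) hd hΩ hE (by linarith) (by nlinarith)
  obtain ⟨N, hN⟩ : ∃ N : ℝ → ℝ≥0∞,
    N = fun s => ∫⁻ x, ENNReal.ofReal (|v s x| ^ (al + 2)) ∂(mu Ω) := ⟨_, rfl⟩
  obtain ⟨ν, hν⟩ : ∃ ν : Measure ℝ, ν = volume.restrict (Ioc 0 t) := ⟨_, rfl⟩
  have hpos : ∀ᵐ s ∂ν, 0 ≤ s := by
    rw [hν]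
    exact ae_restrict_of_forall_mem measurableSet_Ioc fun s hs => hs.1.le
  have hNm : AEMeasurable N ν := by
    refine ⟨fun s => ∫⁻ x, ENNReal.ofReal (|v (max s 0) x| ^ (al + 2)) ∂(mu Ω), ?_, ?_⟩
    · apply measurable_of_Iic
      intro c
      have hc : Continuous fun s : ℝ => v (max s 0) :=
        hs.v_cont.comp_continuous (continuous_id.max continuous_const)
          fun s => mem_Ici.2 (le_max_right _ _)
      exact ((H70.lsc (μ := mu Ω) (al + 2) (by linarith) c).preimage hc).measurableSet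
    · filter_upwards [hpos] with s hs
      rw [hN, max_eq_left hs]
  have hNi : ∫⁻ s, N s ∂ν ≠ ⊤ := by
    have h1 := hs.en 0 t le_rfl ht
    have h2 : ENNReal.ofReal (2 * a) * ∫⁻ r in Icc 0 t, N r ≤
        ENNReal.ofReal (energy Ω v G 0) := by
      rw [hN]
      exact le_add_self.trans h1
    have h3 : ∫⁻ r in Icc 0 t, N r ≠ ⊤ := by
      intro h
      rw [h, ENNReal.mul_top (by simpa using ha)] at h2
      exact absurd (top_le_iff.1 h2) ENNReal.ofReal_ne_top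
    rw [hν]
    exact ne_top_of_le_ne_top h3 (lintegral_mono_set Ioc_subset_Icc_self)
  have hNf : ∀ᵐ s ∂ν, N s < ⊤ := ae_lt_top' hNm hNi
  have hMi : Integrable (fun s => (N s).toReal) ν := integrable_toReal_of_lintegral_ne_top hNm hNi
  have hνf : IsFiniteMeasure ν := by
    rw [hν]
    infer_instance
  have hpb : ∀ s, N s < ⊤ → ∀ Q : VV Ω, Integrable (fun x => gf a al (v s x) * ι Q x) (mu Ω) ∧
      |∫ x, gf a al (v s x) * ι Q x ∂(mu Ω)| ≤ a * (1 + (N s).toReal) * (C * ‖Q‖) := by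
    intro s hs Q
    rw [hN] at hs ⊢
    exact H70.pair_bound ha hal (fun x => v s x) (fun x => ι Q x) (Lp.aestronglyMeasurable _)
      (Lp.aestronglyMeasurable _) (C * ‖Q‖) (by positivity) (hCb Q) hs
  -- the functionals
  obtain ⟨F, hF⟩ : ∃ F : VV Ω → ℝ → ℝ, F = fun Q s => ∫ x, gf a al (v s x) * ι Q x ∂(mu Ω) :=
    ⟨_, rfl⟩
  have hdiff : ∀ Q Q' s, N s < ⊤ → |F Q s - F Q' s| ≤ a * (1 + (N s).toReal) * (C * ‖Q - Q'‖) := by
    intro Q Q' s hs
    have h1 : F Q s - F Q' s = ∫ x, gf a al (v s x) * ι (Q - Q') x ∂(mu Ω) := by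
      rw [hF]
      show (∫ x, gf a al (v s x) * ι Q x ∂(mu Ω)) - (∫ x, gf a al (v s x) * ι Q' x ∂(mu Ω)) = _
      rw [← integral_sub (hpb s hs _).1 (hpb s hs _).1]
      refine integral_congr_ae ?_
      rw [map_sub]
      filter_upwards [Lp.coeFn_sub (ι Q) (ι Q')] with x hx
      rw [hx, Pi.sub_apply]
      ring
    rw [h1]
    exact (hpb s hs (Q - Q')).2
  have hIcc : ∀ s ∈ Icc (0:ℝ) t, s ∈ Ici (0:ℝ) := fun s hs => hs.1
  have hint : ∀ f : ℝ → ℝ, ContinuousOn f (Ici 0) → Integrable f ν := by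
    intro f hf
    rw [hν]
    exact ((hf.mono hIcc).integrableOn_Icc).mono_set Ioc_subset_Icc_self
  have hGP : ∀ Q : VV Ω, Integrable (fun s => ⟪Gs s, Q⟫_ℝ) ν := fun Q =>
    hint _ (hGc.inner continuousOn_const)
  -- a sequence of test functions
  obtain ⟨Pn, hPn, hPlim⟩ : ∃ Pn : ℕ → H91.TT Ω, (∀ n : ℕ, True) ∧
      Tendsto (fun n => H91.ge Ω (Pn n)) atTop (𝓝 P) := by
    have h1 := H91.ge_dense Ω P
    rw [mem_closure_iff_seq_limit] at h1
    obtain ⟨x, hx, hlim⟩ := h1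
    choose y hy using hx
    refine ⟨y, fun _ => trivial, ?_⟩
    refine hlim.congr fun n => (hy n).symm
  obtain ⟨Qn, hQn⟩ : ∃ Qn : ℕ → VV Ω, Qn = fun n => H91.ge Ω (Pn n) := ⟨_, rfl⟩
  have hQlim : Tendsto Qn atTop (𝓝 P) := by rw [hQn]; exact hPlim
  have hιQ : ∀ n, ι (Qn n) =ᵐ[mu Ω] (Pn n).1 := by
    intro n
    rw [hQn]
    exact hE (Pn n).1 (Pn n).2 _ (H91.gr_ae Ω (Pn n))
  have hQg : ∀ n, ((Qn n : VV Ω) : Lp (En d) 2 (mu Ω)) =ᵐ[mu Ω] gradient (Pn n).1 := by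
    intro n
    rw [hQn]
    exact H91.gr_ae Ω (Pn n)
  have hFQ : ∀ n s, F (Qn n) s = ∫ x, gf a al (v s x) * (Pn n).1 x ∂(mu Ω) := by
    intro n s
    rw [hF]
    refine integral_congr_ae ?_
    filter_upwards [hιQ n] with x hx
    rw [hx]
  have hFni : ∀ n, Integrable (F (Qn n)) ν := by
    intro n
    have h1 := hs.gint (Pn n).1 (Pn n).2 t ht
    rw [intervalIntegrable_iff_integrableOn_Ioc_of_le ht] at h1
    have h2 : F (Qn n) = fun s => ∫ x, gf a al (v s x) * (Pn n).1 x ∂(mu Ω) := by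
      funext s
      exact hFQ n s
    rw [h2, hν]
    exact h1
  have heqn : ∀ n, ⟪v t, ι (Qn n)⟫_ℝ = ⟪v 0, ι (Qn n)⟫_ℝ -
      (∫ s, ⟪Gs s, Qn n⟫_ℝ ∂ν + ∫ s, F (Qn n) s ∂ν) := by
    intro n
    have h1 := hs.eq (Pn n).1 (Pn n).2 t ht
    have h2 : ∀ w : Lp ℝ 2 (mu Ω), ⟪w, ι (Qn n)⟫_ℝ = ∫ x, w x * (Pn n).1 x ∂(mu Ω) := by
      intro w
      rw [L2.inner_def]
      refine integral_congr_ae ?_
      filter_upwards [hιQ n] with x hx
      rw [hx]
      simp [mul_comm]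
    have h3 : ∀ s, 0 ≤ s → ⟪Gs s, Qn n⟫_ℝ =
        ∫ x, ⟪G s x, gradient (Pn n).1 x⟫_ℝ ∂(mu Ω) := by
      intro s hs0
      rw [Submodule.coe_inner, L2.inner_def]
      refine integral_congr_ae ?_
      rw [hGs s hs0]
      filter_upwards [hQg n] with x hx
      rw [hx]
    rw [h2, h2, h1, ← integral_add (hGP _) (hFni n), intervalIntegral.integral_of_le ht, ← hν]
    congr 1
    refine integral_congr_ae ?_
    filter_upwards [hpos] with s hs0
    rw [h3 s hs0, hFQ]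
  -- the limits
  have hnorm : Tendsto (fun n => ‖Qn n - P‖) atTop (𝓝 0) :=
    tendsto_iff_norm_sub_tendsto_zero.1 hQlim
  obtain ⟨B, hB⟩ := hQlim.norm.bddAbove_range
  have hB' : ∀ n, ‖Qn n‖ ≤ B := fun n => hB ⟨n, rfl⟩
  have hFlim : ∀ᵐ s ∂ν, Tendsto (fun n => F (Qn n) s) atTop (𝓝 (F P s)) := by
    filter_upwards [hNf] with s hs
    rw [tendsto_iff_norm_sub_tendsto_zero]
    have h1 : Tendsto (fun n => a * (1 + (N s).toReal) * (C * ‖Qn n - P‖)) atTop (𝓝 0) := by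
      have h3 := (hnorm.const_mul C).const_mul (a * (1 + (N s).toReal))
      simpa using h3
    exact squeeze_zero (fun n => norm_nonneg _) (fun n => hdiff _ _ s hs) h1
  have hFm : AEStronglyMeasurable (F P) ν :=
    aestronglyMeasurable_of_tendsto_ae atTop (fun n => (hFni n).aestronglyMeasurable) hFlim
  have hbi : Integrable (fun s => a * (1 + (N s).toReal) * (C * B)) ν :=
    (((integrable_const 1).add hMi).const_mul a).mul_const _
  have hFb : ∀ (Q : VV Ω) s, N s < ⊤ → |F Q s| ≤ a * (1 + (N s).toReal) * (C * ‖Q‖) := by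
    intro Q s hs
    rw [hF]
    exact (hpb s hs Q).2
  have hFi : Integrable (F P) ν := by
    refine Integrable.mono' ((((integrable_const 1).add hMi).const_mul a).mul_const (C * ‖P‖))
      hFm ?_
    filter_upwards [hNf] with s hs
    rw [Real.norm_eq_abs]
    exact hFb P s hs
  have hFlim2 : Tendsto (fun n => ∫ s, F (Qn n) s ∂ν) atTop (𝓝 (∫ s, F P s ∂ν)) := by
    refine tendsto_integral_of_dominated_convergence _ (fun n => (hFni n).aestronglyMeasurable) hbi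
      (fun n => ?_) hFlim
    filter_upwards [hNf] with s hs
    rw [Real.norm_eq_abs]
    refine (hFb (Qn n) s hs).trans ?_
    have := hB' n
    gcongr
  have hGlim : Tendsto (fun n => ∫ s, ⟪Gs s, Qn n⟫_ℝ ∂ν) atTop (𝓝 (∫ s, ⟪Gs s, P⟫_ℝ ∂ν)) := by
    refine tendsto_integral_of_dominated_convergence (fun s => ‖Gs s‖ * B)
      (fun n => (hGP _).aestronglyMeasurable)
      ((hint _ hGc.norm).mul_const B) (fun n => ?_) ?_
    · refine Eventually.of_forall fun s => ?_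
      refine (norm_inner_le_norm _ _).trans ?_
      exact mul_le_mul_of_nonneg_left (hB' n) (norm_nonneg _)
    · exact Eventually.of_forall fun s => tendsto_const_nhds.inner hQlim
  have hι : ∀ w : Lp ℝ 2 (mu Ω), Tendsto (fun n => ⟪w, ι (Qn n)⟫_ℝ) atTop (𝓝 ⟪w, ι P⟫_ℝ) :=
    fun w => tendsto_const_nhds.inner ((ι.continuous.tendsto P).comp hQlim)
  have hlimR := (hι (v 0)).sub (hGlim.add hFlim2)
  have heq := tendsto_nhds_unique ((hι (v t)).congr heqn) hlimR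
  have hII : IntervalIntegrable (F P) volume 0 t := by
    rw [intervalIntegrable_iff_integrableOn_Ioc_of_le ht]
    rw [hν] at hFi
    exact hFi
  refine ⟨by rw [hF] at hII; exact hII, ?_⟩
  rw [heq, intervalIntegral.integral_of_le ht, ← hν, ← integral_add (hGP P) hFi, hF]

/-- TRC. -/
theorem trc (hLpe : LpeStmt) : TrcStmt := by
  intro d Ω ι b e om a al u v G hd hΩ hE hG hS ha hal hdal hs
  have hcs : CompleteSpace (VV Ω) := (Submodule.isClosed_topologicalClosure _).completeSpace_coe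
  let Q : Lp (En d) 2 (mu Ω) →L[ℝ] VV Ω := (VV Ω).orthogonalProjectionOnto
  obtain ⟨Gs, hGsd⟩ : ∃ Gs : ℝ → VV Ω, Gs = fun t => Q (G t) := ⟨_, rfl⟩
  have hcoe : ∀ t, 0 ≤ t → ((Gs t : VV Ω) : Lp (En d) 2 (mu Ω)) = G t ∧ u t = ι (Gs t) := by
    intro t ht
    obtain ⟨hGV, hu⟩ := (hG (u t) (G t)).1 (hs.dom t ht)
    have h3 : Gs t = ⟨G t, hGV⟩ := by
      rw [hGsd]
      exact Submodule.orthogonalProjectionOnto_mem_subspace_eq_self (⟨G t, hGV⟩ : VV Ω)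
    rw [h3]
    exact ⟨rfl, hu⟩
  have hGc : ContinuousOn Gs (Ici 0) := by
    rw [hGsd]
    exact Q.continuous.comp_continuousOn hs.G_cont
  obtain ⟨z1, hz1⟩ : ∃ z1 : ℝ → Lp ℝ 2 (mu Ω), z1 = fun t => (UU b e).symm (Gs t) := ⟨_, rfl⟩
  have hU : ∀ t, UU b e (z1 t) = Gs t := by
    intro t
    rw [hz1]
    exact (UU b e).apply_symm_apply _
  have hen : ∀ t, 0 ≤ t → energy Ω v G t = enr (mu Ω) z1 v t := by
    intro t ht
    have h1 : ‖G t‖ = ‖z1 t‖ := by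
      rw [← (hcoe t ht).1, ← hU t]
      exact (UU b e).norm_map (z1 t)
    show ∫ x, v t x ^ 2 + ‖G t x‖ ^ 2 ∂(mu Ω) = ‖z1 t‖ ^ 2 + ‖v t‖ ^ 2
    rw [← h1, H62.norm_sq_eq, H62.norm_sq_eq, add_comm (∫ x, _ ∂(mu Ω)), ← integral_add]
    · refine integral_congr_ae (Eventually.of_forall fun x => ?_)
      show v t x ^ 2 + _ = ‖v t x‖ ^ 2 + _
      rw [Real.norm_eq_abs, sq_abs]
    · exact H62.integrable_sq _
    · exact H62.integrable_sq _
  have hin : ∀ k t, ⟪e k, Gs t⟫_ℝ = ⟪b k, z1 t⟫_ℝ := by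
    intro k t
    rw [← hU t]
    exact H62.inner_UU b e k (z1 t)
  -- the eigenfunctions
  have hbk : ∀ k, ι (om k • e k) = b k := by
    intro k
    refine H62.hb_ext b fun j => ?_
    have h5 : ⟪e j, om k • e k⟫_ℝ = om k * ⟪e j, e k⟫_ℝ :=
      real_inner_smul_right (e j) (e k) (om k)
    rw [hS.rel, h5, orthonormal_iff_ite.1 e.orthonormal j k,
      orthonormal_iff_ite.1 b.orthonormal j k]
    split_ifs with h
    · rw [h, mul_one, inv_mul_cancel₀ (hS.pos k).ne']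
    · simp
  have hx : ∀ k t, 0 ≤ t →
      IntervalIntegrable (fun s => ∫ x, gf a al (v s x) * b k x ∂(mu Ω)) volume 0 t ∧
      ⟪v t, b k⟫_ℝ = ⟪v 0, b k⟫_ℝ -
        ∫ s in (0:ℝ)..t, (⟪Gs s, om k • e k⟫_ℝ + ∫ x, gf a al (v s x) * b k x ∂(mu Ω)) := by
    intro k t ht
    have h1 := trc_ext hLpe Ω ι a al u v G hd hΩ hE ha hal hdal hs Gs (fun t ht => (hcoe t ht).1)
      hGc t ht (om k • e k)
    rw [hbk] at h1
    exact h1
  refine ⟨z1, ⟨?_, hs.v_cont, ?_, ?_, ?_, ?_⟩, ?_, hen⟩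
  · rw [hz1]
    exact (UU b e).symm.continuous.comp_continuousOn hGc
  · intro s t h0 hst
    rw [← hen s h0, ← hen t (h0.trans hst)]
    exact hs.en s t h0 hst
  · intro k t ht
    exact (hx k t ht).1
  · intro k t ht
    have hint : IntervalIntegrable v volume 0 t :=
      (hs.v_cont.mono Icc_subset_Ici_self).intervalIntegrable_of_Icc ht
    have h1 := ContinuousLinearMap.intervalIntegral_comp_comm (innerSL ℝ (b k)) hint
    have h2 : ⟪b k, ∫ s in (0:ℝ)..t, v s⟫_ℝ = ∫ s in (0:ℝ)..t, ⟪b k, v s⟫_ℝ := h1.symm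
    have h3 : ∀ r, 0 ≤ r → ⟪b k, z1 r⟫_ℝ = om k * ⟪b k, u r⟫_ℝ := by
      intro r hr
      rw [(hcoe r hr).2, hS.rel, hin, mul_inv_cancel_left₀ (hS.pos k).ne']
    rw [h3 t ht, h3 0 le_rfl, hs.du t ht, inner_add_right, h2, mul_add]
  · intro k t ht
    have h1 := (hx k t ht).2
    rw [real_inner_comm (v t) (b k), real_inner_comm (v 0) (b k), h1]
    congr 1
    refine intervalIntegral.integral_congr fun s _ => ?_
    show ⟪Gs s, om k • e k⟫_ℝ + _ = om k * ⟪b k, z1 s⟫_ℝ + _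
    have h5 : ⟪Gs s, om k • e k⟫_ℝ = om k * ⟪Gs s, e k⟫_ℝ :=
      real_inner_smul_right (Gs s) (e k) (om k)
    rw [h5, real_inner_comm (e k) (Gs s), hin]
  · intro t ht
    rw [hU]
    exact ⟨(hcoe t ht).2, (hcoe t ht).1.symm⟩

end

end Pool.Agent.BEL.H65
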