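import Pool.Agent.BEL.StmtsC

/-!
# Squad BEL, row CTI: continuity in time of the terms of the perturbation estimate
-/

namespace Pool.Agent.BEL.H65

open Set Filter Topology MeasureTheory
open scoped InnerProductSpace ENNReal

noncomputable section

variable {X : Type} [MeasurableSpace X] {μ : Measure X}

lemma sub_ae {f : ℕ → Lp ℝ 2 μ} {g : Lp ℝ 2 μ} (h : Tendsto f atTop (𝓝 g)) :
    ∃ ns : ℕ → ℕ, StrictMono ns ∧ ∀ᵐ x ∂μ, Tendsto (fun i => f (ns i) x) atTop (𝓝 (g x)) :=
  (tendstoInMeasure_of_tendsto_Lp h).exists_seq_tendsto_ae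

lemma cont_int [IsFiniteMeasure μ] (F : ℝ × ℝ × ℝ → ℝ) (hF : Continuous F)
    (hb : ∀ R, ∃ C, ∀ p q s, |s| ≤ R → |F (p, q, s)| ≤ C) (w v y : ℝ → Lp ℝ 2 μ)
    (hw : Continuous w) (hv : Continuous v) (hy : Continuous y) (B : ℝ)
    (hB : ∀ t, ∀ᵐ x ∂μ, |y t x| ≤ B * ‖y t‖) (ρ : X → ℝ) (hρ : Integrable ρ μ) :
    Continuous fun t => ∫ x, F (w t x, v t x, y t x) * ρ x ∂μ := by
  rw [continuous_iff_continuousAt]
  intro t0
  refine tendsto_of_subseq_tendsto fun ns hns => ?_
  obtain ⟨m1, hm1, h1⟩ := sub_ae ((hw.tendsto t0).comp hns)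
  have hns1 : Tendsto (fun n => ns (m1 n)) atTop (𝓝 t0) := hns.comp hm1.tendsto_atTop
  obtain ⟨m2, hm2, h2⟩ := sub_ae ((hv.tendsto t0).comp hns1)
  have hns2 : Tendsto (fun n => ns (m1 (m2 n))) atTop (𝓝 t0) := hns1.comp hm2.tendsto_atTop
  obtain ⟨m3, hm3, h3⟩ := sub_ae ((hy.tendsto t0).comp hns2)
  have hns3 : Tendsto (fun n => ns (m1 (m2 (m3 n)))) atTop (𝓝 t0) :=
    hns2.comp hm3.tendsto_atTop
  refine ⟨fun n => m1 (m2 (m3 n)), ?_⟩
  have hyn : Tendsto (fun n => ‖y (ns (m1 (m2 (m3 n))))‖) atTop (𝓝 ‖y t0‖) :=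
    ((hy.tendsto t0).comp hns3).norm
  obtain ⟨R, hR⟩ := hyn.bddAbove_range
  have hR' : ∀ n, ‖y (ns (m1 (m2 (m3 n))))‖ ≤ R := fun n => hR ⟨n, rfl⟩
  obtain ⟨C, hC⟩ := hb (|B| * R)
  refine tendsto_integral_of_dominated_convergence (fun x => C * |ρ x|) ?_
    ((hρ.abs).const_mul C) ?_ ?_
  · intro n
    refine AEStronglyMeasurable.mul ?_ hρ.aestronglyMeasurable
    refine hF.comp_aestronglyMeasurable ?_
    exact (Lp.aestronglyMeasurable _).prodMk
      ((Lp.aestronglyMeasurable _).prodMk (Lp.aestronglyMeasurable _))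
  · intro n
    filter_upwards [hB (ns (m1 (m2 (m3 n))))] with x hx
    rw [Real.norm_eq_abs, abs_mul]
    refine mul_le_mul_of_nonneg_right (hC _ _ _ ?_) (abs_nonneg _)
    refine hx.trans ?_
    refine (mul_le_mul_of_nonneg_right (le_abs_self B) (norm_nonneg _)).trans ?_
    exact mul_le_mul_of_nonneg_left (hR' n) (abs_nonneg _)
  · filter_upwards [h1, h2, h3] with x hx1 hx2 hx3
    have k1 : Tendsto (fun n => w (ns (m1 (m2 (m3 n)))) x) atTop (𝓝 (w t0 x)) :=
      hx1.comp (hm2.tendsto_atTop.comp hm3.tendsto_atTop)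
    have k2 : Tendsto (fun n => v (ns (m1 (m2 (m3 n)))) x) atTop (𝓝 (v t0 x)) :=
      hx2.comp hm3.tendsto_atTop
    have k3 : Tendsto (fun n => y (ns (m1 (m2 (m3 n)))) x) atTop (𝓝 (y t0 x)) := hx3
    exact ((hF.tendsto _).comp (k1.prodMk_nhds (k2.prodMk_nhds k3))).mul_const _

lemma PJ_apply {H : Type} [NormedAddCommGroup H] [InnerProductSpace ℝ H] {κ : Type}
    (b : HilbertBasis κ ℝ H) (J : Finset κ) (v : H) : PJ b J v = ∑ j ∈ J, ⟪b j, v⟫_ℝ • b j := by
  unfold PJ
  rw [sum_apply]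
  rfl

lemma bdd_of_PJ {κ : Type} (b : HilbertBasis κ ℝ (Lp ℝ 2 μ)) (J : Finset κ) (A : ℝ)
    (hA : ∀ᵐ x ∂μ, ∑ j ∈ J, (b j x) ^ 2 ≤ A) (y : Lp ℝ 2 μ) (hy : PJ b J y = y) :
    ∀ᵐ x ∂μ, |y x| ≤ √A * ‖y‖ := by
  have h1 : (y : X → ℝ) =ᵐ[μ] fun x => ∑ j ∈ J, ⟪b j, y⟫_ℝ * b j x := by
    have h2 : (y : X → ℝ) =ᵐ[μ] ((∑ j ∈ J, ⟪b j, y⟫_ℝ • b j : Lp ℝ 2 μ) : X → ℝ) := by
      rw [← PJ_apply, hy]
    have h3 : ((∑ j ∈ J, ⟪b j, y⟫_ℝ • b j : Lp ℝ 2 μ) : X → ℝ) =ᵐ[μ]
        ∑ j ∈ J, ((⟪b j, y⟫_ℝ • b j : Lp ℝ 2 μ) : X → ℝ) := Lp.coeFn_finsetSum _ _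
    have h4 : ∀ᵐ x ∂μ, ∀ j ∈ J, ((⟪b j, y⟫_ℝ • b j : Lp ℝ 2 μ) : X → ℝ) x =
        ⟪b j, y⟫_ℝ * b j x := by
      rw [eventually_all_finset]
      intro j _
      filter_upwards [Lp.coeFn_smul ⟪b j, y⟫_ℝ (b j)] with x hx
      rw [hx]; rfl
    filter_upwards [h2, h3, h4] with x hx2 hx3 hx4
    rw [hx2, hx3, Finset.sum_apply]
    exact Finset.sum_congr rfl fun j hj => hx4 j hj
  filter_upwards [h1, hA] with x hx hxA
  rw [hx]
  have h5 : (∑ j ∈ J, ⟪b j, y⟫_ℝ * b j x) ^ 2 ≤ (∑ j ∈ J, ⟪b j, y⟫_ℝ ^ 2) * ∑ j ∈ J, b j x ^ 2 :=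
    Finset.sum_mul_sq_le_sq_mul_sq _ _ _
  have h6 : ∑ j ∈ J, ⟪b j, y⟫_ℝ ^ 2 ≤ ‖y‖ ^ 2 := by
    have := b.orthonormal.sum_inner_products_le (s := J) (x := y)
    simpa using this
  have hS : 0 ≤ ∑ j ∈ J, b j x ^ 2 := Finset.sum_nonneg fun _ _ => sq_nonneg _
  have hA0 : 0 ≤ A := hS.trans hxA
  have h7 : (∑ j ∈ J, ⟪b j, y⟫_ℝ * b j x) ^ 2 ≤ (√A * ‖y‖) ^ 2 := by
    rw [mul_pow, Real.sq_sqrt hA0]
    refine h5.trans ?_
    rw [mul_comm A]
    exact mul_le_mul h6 hxA hS (sq_nonneg _)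
  exact abs_le_of_sq_le_sq' h7 (by positivity) |> fun h => abs_le.2 h

/-- CTI. -/
theorem cti (hC : CglStmt) (hM : MlpStmt) : CtiStmt := by
  intro X _ μ _ κ b J A a al l M ha hal hl hM0 hA w v y hw hv hy hP
  have hB : ∀ t, ∀ᵐ x ∂μ, |y t x| ≤ √A * ‖y t‖ := fun t => bdd_of_PJ b J A hA (y t) (hP t)
  obtain ⟨c1, c2, c3, c4, c5, c6, c7, c8, c9, c10, c11, c12, c13, c14, c15⟩ :=
    hC a al l ha hal hl.le
  obtain ⟨d1, d2, d3, d4⟩ := c15 M hM0
  have hql : ∀ s, ql a al l s ≤ a * (al + 1) * l ^ al := by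
    intro s
    unfold ql
    exact mul_le_mul_of_nonneg_left (c7 s) (by positivity)
  have hone : Integrable (fun _ : X => (1 : ℝ)) μ := integrable_const _
  refine ⟨?_, ?_, ?_, ?_, ?_⟩
  · -- h1
    have h := cont_int (μ := μ) (fun z => |z.2.2| ^ (al + 2)) ?_ ?_ w v y hw hv hy (√A) hB
      (fun _ => 1) hone
    · refine h.congr fun t => ?_
      unfold h1
      simp only [mul_one]
    · exact (continuous_abs.comp (continuous_snd.comp continuous_snd)).rpow_const
        fun _ => Or.inr (by linarith)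
    · intro R
      refine ⟨R ^ (al + 2), fun p q s hs => ?_⟩
      show |(|s| ^ (al + 2))| ≤ _
      rw [abs_of_nonneg (by positivity)]
      exact Real.rpow_le_rpow (abs_nonneg _) hs (by linarith)
  · -- h2
    by_cases h2a : 2 < al
    · obtain ⟨e1, -, -, -, -, e6, e7, -, -, -, -, -, -, -, -⟩ :=
        hC 1 (al - 2) l one_pos (by linarith) hl.le
      have h := cont_int (μ := μ) (fun z => mm (al - 2) l z.1 * z.2.2 ^ 4) ?_ ?_ w v y hw hv hy
        (√A) hB (fun _ => 1) hone
      · refine h.congr fun t => ?_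
        unfold h2
        rw [if_pos h2a]
        simp only [mul_one]
      · exact (e1.comp continuous_fst).mul ((continuous_snd.comp continuous_snd).pow 4)
      · intro R
        refine ⟨l ^ (al - 2) * R ^ 4, fun p q s hs => ?_⟩
        show |mm (al - 2) l p * s ^ 4| ≤ _
        rw [abs_mul, abs_of_nonneg (e6 p), abs_pow]
        exact mul_le_mul (e7 p) (pow_le_pow_left₀ (abs_nonneg _) hs 4) (by positivity)
          (by positivity)
    · have : (fun t => h2 μ al l (w t) (y t)) = fun _ => 0 := by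
        funext t
        unfold h2
        rw [if_neg h2a]
      rw [this]
      exact continuous_const
  · -- h3
    have h := cont_int (μ := μ) (fun z => max (ql a al l z.1 - M) 0 * z.2.2 ^ 2) ?_ ?_ w v y hw hv
      hy (√A) hB (fun _ => 1) hone
    · refine h.congr fun t => ?_
      unfold h3
      simp only [mul_one]
    · exact (((c2.comp continuous_fst).sub continuous_const).max continuous_const).mul
        ((continuous_snd.comp continuous_snd).pow 2)
    · intro R
      refine ⟨a * (al + 1) * l ^ al * R ^ 2, fun p q s hs => ?_⟩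
      show |max (ql a al l p - M) 0 * s ^ 2| ≤ _
      rw [abs_mul, abs_of_nonneg (le_max_right _ _), abs_pow]
      refine mul_le_mul ?_ (pow_le_pow_left₀ (abs_nonneg _) hs 2) (by positivity)
        (by positivity)
      exact max_le (by linarith [hql p]) (by positivity)
  · -- h4
    have h := cont_int (μ := μ)
      (fun z => (min (ql a al l z.1) M - cf a al M z.2.1) ^ 2 * z.2.2 ^ 2) ?_ ?_ w v y hw hv
      hy (√A) hB (fun _ => 1) hone
    · refine h.congr fun t => ?_
      unfold h4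
      simp only [mul_one]
    · exact ((((c2.comp continuous_fst).min continuous_const).sub
        (d1.comp (continuous_fst.comp continuous_snd))).pow 2).mul
        ((continuous_snd.comp continuous_snd).pow 2)
    · intro R
      refine ⟨M ^ 2 * R ^ 2, fun p q s hs => ?_⟩
      show |(min (ql a al l p) M - cf a al M q) ^ 2 * s ^ 2| ≤ _
      rw [abs_mul, abs_pow, abs_pow]
      refine mul_le_mul ?_ (pow_le_pow_left₀ (abs_nonneg _) hs 2) (by positivity)
        (by positivity)
      refine pow_le_pow_left₀ (abs_nonneg _) ?_ 2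
      have m1 : 0 ≤ min (ql a al l p) M := le_min (c8 p) hM0.le
      have m2 : min (ql a al l p) M ≤ M := min_le_right _ _
      exact abs_le.2 ⟨by linarith [d3 q], by linarith [d2 q]⟩
  · -- lk
    have hms : ∀ t, Measurable (cfv μ a al M (v t)) := by
      intro t
      exact d1.measurable.comp (Lp.stronglyMeasurable (v t)).measurable
    have hbd : ∀ t x, |cfv μ a al M (v t) x| ≤ M := by
      intro t x
      unfold cfv
      rw [abs_of_nonneg (d2 _)]
      exact d3 _
    have hml : ∀ t, ml μ (cfv μ a al M (v t)) (y t) =ᵐ[μ]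
        fun x => cf a al M (v t x) * y t x := fun t => (hM X μ _ M (hms t) (hbd t)).1 (y t)
    have hcont : Continuous fun t => ml μ (cfv μ a al M (v t)) (y t) := by
      rw [continuous_iff_continuousAt]
      intro t0
      let m : ℝ → Lp ℝ 2 μ := fun t => ml μ (cfv μ a al M (v t)) (y t)
      have hm : ∀ t, m t =ᵐ[μ] fun x => cf a al M (v t x) * y t x := hml
      have hN : Continuous fun t => ‖m t‖ ^ 2 := by
        have h := cont_int (μ := μ) (fun z => (cf a al M z.2.1 * z.2.2) ^ 2) ?_ ?_ w v y hw hv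
          hy (√A) hB (fun _ => 1) hone
        · refine h.congr fun t => ?_
          rw [← real_inner_self_eq_norm_sq, L2.inner_def]
          refine integral_congr_ae ?_
          filter_upwards [hm t] with x hx
          rw [hx]
          simp only [mul_one]
          show (cf a al M (v t x) * y t x) ^ 2 = _
          rw [real_inner_self_eq_norm_sq, Real.norm_eq_abs, sq_abs]
        · exact ((d1.comp (continuous_fst.comp continuous_snd)).mul
            (continuous_snd.comp continuous_snd)).pow 2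
        · intro R
          refine ⟨(M * R) ^ 2, fun p q s hs => ?_⟩
          show |(cf a al M q * s) ^ 2| ≤ _
          rw [abs_pow]
          refine pow_le_pow_left₀ (abs_nonneg _) ?_ 2
          rw [abs_mul, abs_of_nonneg (d2 q)]
          exact mul_le_mul (d3 q) hs (abs_nonneg _) hM0.le
      have hI : Continuous fun t => ⟪m t, m t0⟫_ℝ := by
        have hmi : Integrable (fun x => m t0 x) μ :=
          (Lp.memLp (m t0)).integrable (by norm_num)
        have h := cont_int (μ := μ) (fun z => cf a al M z.2.1 * z.2.2) ?_ ?_ w v y hw hv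
          hy (√A) hB (fun x => m t0 x) hmi
        · refine h.congr fun t => ?_
          rw [L2.inner_def]
          refine integral_congr_ae ?_
          filter_upwards [hm t] with x hx
          rw [hx]
          show cf a al M (v t x) * y t x * m t0 x = _
          simp only [RCLike.inner_apply, conj_trivial]
          ring
        · exact (d1.comp (continuous_fst.comp continuous_snd)).mul
            (continuous_snd.comp continuous_snd)
        · intro R
          refine ⟨M * R, fun p q s hs => ?_⟩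
          show |cf a al M q * s| ≤ _
          rw [abs_mul, abs_of_nonneg (d2 q)]
          exact mul_le_mul (d3 q) hs (abs_nonneg _) hM0.le
      have hd : Tendsto (fun t => ‖m t - m t0‖ ^ 2) (𝓝 t0) (𝓝 0) := by
        have h8 : Continuous fun t => ‖m t - m t0‖ ^ 2 := by
          have h9 : (fun t => ‖m t - m t0‖ ^ 2) =
              fun t => ‖m t‖ ^ 2 - 2 * ⟪m t, m t0⟫_ℝ + ‖m t0‖ ^ 2 := by
            funext t
            exact norm_sub_sq_real _ _
          rw [h9]
          exact (hN.sub (continuous_const.mul hI)).add continuous_const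
        have h10 := h8.tendsto t0
        simpa using h10
      rw [ContinuousAt, tendsto_iff_norm_sub_tendsto_zero]
      have h11 := (Real.continuous_sqrt.tendsto 0).comp hd
      rw [Real.sqrt_zero] at h11
      refine h11.congr fun t => ?_
      show √(‖m t - m t0‖ ^ 2) = _
      rw [Real.sqrt_sq (norm_nonneg _)]
    unfold lk
    exact ((hcont.sub ((PJ b J).continuous.comp hcont)).norm).pow 2

end

end Pool.Agent.BEL.H65
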