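import Pool.Agent.BEL.Defs2

/-!
# Squad BEL, row GD2: the dense `G_δ` of data with positive upper logarithmic density
-/

namespace Pool.Agent.BEL.H65

open Set Filter Topology MeasureTheory
open scoped InnerProductSpace ENNReal

noncomputable section

lemma ind_int (f : ℝ → ℝ) (hf : ContinuousOn f (Ici 0)) (c' β T : ℝ) (hT : 1 ≤ T) :
    IntervalIntegrable ({t | c' * t ^ β ≤ f t}.indicator (fun s : ℝ => s⁻¹)) volume 1 T := by
  rw [intervalIntegrable_iff_integrableOn_Ioc_of_le hT]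
  have hsub : Icc 1 T ⊆ Ici (0 : ℝ) := fun t ht => zero_le_one.trans ht.1
  have hcl : IsClosed {t ∈ Icc 1 T | c' * t ^ β ≤ f t} := by
    refine isClosed_Icc.isClosed_le ?_ (hf.mono hsub)
    refine continuousOn_const.mul (continuousOn_id.rpow_const fun t ht => Or.inl ?_)
    have h1 : (1 : ℝ) ≤ t := ht.1
    show t ≠ 0
    exact (zero_lt_one.trans_le h1).ne'
  have h1 : IntegrableOn ({t ∈ Icc 1 T | c' * t ^ β ≤ f t}.indicator (fun s : ℝ => s⁻¹))
      (Ioc 1 T) := by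
    refine Measure.integrableOn_of_bounded (M := 1) (by simp) ?_ ?_
    · exact (measurable_inv.indicator hcl.measurableSet).aestronglyMeasurable
    · refine (ae_restrict_iff' measurableSet_Ioc).2 (Eventually.of_forall fun t ht => ?_)
      have h2 : (1 : ℝ) < t := ht.1
      by_cases h3 : t ∈ {t ∈ Icc 1 T | c' * t ^ β ≤ f t}
      · rw [indicator_of_mem h3, Real.norm_eq_abs, abs_of_pos (inv_pos.2 (by linarith))]
        exact inv_le_one_of_one_le₀ h2.le
      · rw [indicator_of_notMem h3, norm_zero]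
        exact zero_le_one
  refine h1.congr_fun (fun t ht => ?_) measurableSet_Ioc
  have h2 : t ∈ Icc 1 T := ⟨ht.1.le, ht.2⟩
  by_cases h3 : c' * t ^ β ≤ f t
  · rw [indicator_of_mem (show t ∈ {t ∈ Icc 1 T | c' * t ^ β ≤ f t} from ⟨h2, h3⟩),
      indicator_of_mem (show t ∈ {t | c' * t ^ β ≤ f t} from h3)]
  · rw [indicator_of_notMem (show t ∉ {t ∈ Icc 1 T | c' * t ^ β ≤ f t} from fun h => h3 h.2),
      indicator_of_notMem (show t ∉ {t | c' * t ^ β ≤ f t} from h3)]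

/-- GD2. -/
theorem gd2 : Gd2Stmt := by
  intro K _ al c g S hal hc hcon hcont hdense
  have hq : 0 < 1 - 1 / √2 := by
    have h1 : 1 < √2 := by
      rw [show (1 : ℝ) = √1 by simp]
      exact Real.sqrt_lt_sqrt (by norm_num) (by norm_num)
    have h2 : 1 / √2 < 1 := by
      rw [div_lt_one (by positivity)]
      exact h1
    linarith
  have hsc : 0 < √c := Real.sqrt_pos.2 hc
  let r : ℝ → ℝ := fun T => (1 - 1 / √2) * √c * T ^ (-(1 / al))
  have hr : ∀ T, 1 ≤ T → 0 < r T := fun T hT => by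
    have : 0 < T := by linarith
    exact mul_pos (mul_pos hq hsc) (Real.rpow_pos_of_pos this _)
  have hf : ∀ V, ContinuousOn (fun t => ‖S t V‖ ^ 2) (Ici 0) := fun V => (hcont V).norm.pow 2
  have key : ∀ V0 V T, 1 ≤ T → ‖V - V0‖ < r T →
      ∫ t in (1:ℝ)..T, {t | c * t ^ (-(2 / al)) ≤ ‖S t V0‖ ^ 2}.indicator (fun s => s⁻¹) t ≤
      ∫ t in (1:ℝ)..T, {t | c / 2 * t ^ (-(2 / al)) ≤ ‖S t V‖ ^ 2}.indicator
        (fun s => s⁻¹) t := by
    intro V0 V T hT hV
    refine intervalIntegral.integral_mono_on hT (ind_int _ (hf V0) c _ T hT)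
      (ind_int _ (hf V) (c / 2) _ T hT) fun t ht => ?_
    have ht0 : 0 < t := by linarith [ht.1]
    by_cases h3 : c * t ^ (-(2 / al)) ≤ ‖S t V0‖ ^ 2
    · have h4 : c / 2 * t ^ (-(2 / al)) ≤ ‖S t V‖ ^ 2 := by
        have e1 : t ^ (-(2 / al)) = (t ^ (-(1 / al))) ^ 2 := by
          rw [← Real.rpow_natCast, ← Real.rpow_mul ht0.le]
          congr 1
          push_cast
          ring
        have hp : 0 < t ^ (-(1 / al)) := Real.rpow_pos_of_pos ht0 _
        have e2 : √c * t ^ (-(1 / al)) ≤ ‖S t V0‖ := by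
          refine le_of_sq_le_sq ?_ (norm_nonneg _)
          rw [mul_pow, Real.sq_sqrt hc.le, ← e1]
          exact h3
        have e3 : ‖S t V0‖ ≤ ‖S t V‖ + ‖V - V0‖ := by
          have h5 := hcon t V0 V ht0.le
          have h6 : ‖S t V0‖ ≤ ‖S t V‖ + ‖S t V0 - S t V‖ := by
            calc ‖S t V0‖ = ‖S t V + (S t V0 - S t V)‖ := by rw [add_sub_cancel]
              _ ≤ _ := norm_add_le _ _
          rw [norm_sub_rev V0 V] at h5
          linarith
        have e4 : r T ≤ (1 - 1 / √2) * √c * t ^ (-(1 / al)) := by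
          refine mul_le_mul_of_nonneg_left ?_ (mul_pos hq hsc).le
          exact Real.rpow_le_rpow_of_nonpos ht0 ht.2 (by
            rw [neg_nonpos]; positivity)
        have e5 : 1 / √2 * (√c * t ^ (-(1 / al))) ≤ ‖S t V‖ := by
          have h7 : (1 - 1 / √2) * √c * t ^ (-(1 / al)) =
              √c * t ^ (-(1 / al)) - 1 / √2 * (√c * t ^ (-(1 / al))) := by ring
          linarith
        have h8 : c / 2 * t ^ (-(2 / al)) = (1 / √2 * (√c * t ^ (-(1 / al)))) ^ 2 := by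
          rw [mul_pow, mul_pow, div_pow, Real.sq_sqrt hc.le, Real.sq_sqrt (by norm_num), e1]
          ring
        rw [h8]
        exact pow_le_pow_left₀ (by positivity) e5 2
      rw [indicator_of_mem (show t ∈ {t | c * t ^ (-(2 / al)) ≤ ‖S t V0‖ ^ 2} from h3),
        indicator_of_mem (show t ∈ {t | c / 2 * t ^ (-(2 / al)) ≤ ‖S t V‖ ^ 2} from h4)]
    · rw [indicator_of_notMem (show t ∉ {t | c * t ^ (-(2 / al)) ≤ ‖S t V0‖ ^ 2} from h3)]
      by_cases h9 : t ∈ {t | c / 2 * t ^ (-(2 / al)) ≤ ‖S t V‖ ^ 2}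
      · rw [indicator_of_mem h9]
        exact inv_nonneg.2 ht0.le
      · rw [indicator_of_notMem h9]
  let Good : Set K := {V | LowLog {t | c * t ^ (-(2 / al)) ≤ ‖S t V‖ ^ 2} g}
  let TT : K → ℕ → Set ℝ := fun V0 n => {T | (n : ℝ) ≤ T ∧ 1 ≤ T ∧ g * Real.log T ≤
    ∫ t in (1:ℝ)..T, {t | c * t ^ (-(2 / al)) ≤ ‖S t V0‖ ^ 2}.indicator (fun s => s⁻¹) t}
  let U : ℕ → Set K := fun n => ⋃ V0 ∈ Good, ⋃ T ∈ TT V0 n, Metric.ball V0 (r T)
  have hUo : ∀ n, IsOpen (U n) := fun n =>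
    isOpen_biUnion fun V0 _ => isOpen_biUnion fun T _ => Metric.isOpen_ball
  have hGU : Good ⊆ ⋂ n, U n := by
    intro V0 hV0
    refine mem_iInter.2 fun n => ?_
    have h1 : LowLog {t | c * t ^ (-(2 / al)) ≤ ‖S t V0‖ ^ 2} g := hV0
    obtain ⟨T, ⟨hT1, hT2⟩, hT3⟩ := (((eventually_ge_atTop (n : ℝ)).and
      (eventually_ge_atTop (1 : ℝ))).and h1).exists
    refine mem_biUnion hV0 (mem_biUnion (show T ∈ TT V0 n from ⟨hT1, hT2, hT3⟩) ?_)
    exact Metric.mem_ball_self (hr T hT2)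
  refine ⟨⋂ n, U n, IsGδ.iInter_of_isOpen hUo, ?_, ?_⟩
  · have hGd : Dense Good := by
      rw [Metric.dense_iff]
      intro V0 ρ hρ
      obtain ⟨V, hV, hVg⟩ := hdense V0 ρ hρ
      refine ⟨V, ?_, hVg⟩
      rw [Metric.mem_ball, dist_eq_norm]
      exact hV
    exact hGd.mono hGU
  · intro V hV
    refine frequently_atTop.2 fun s => ?_
    obtain ⟨n, hn⟩ := exists_nat_ge s
    have h1 : V ∈ U n := mem_iInter.1 hV n
    obtain ⟨V0, hV0, h2⟩ := mem_iUnion₂.1 h1
    obtain ⟨T, ⟨hT1, hT2, hT3⟩, h3⟩ := mem_iUnion₂.1 h2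
    refine ⟨T, hn.trans hT1, hT3.trans (key V0 V T hT2 ?_)⟩
    rw [Metric.mem_ball, dist_eq_norm] at h3
    exact h3

end

end Pool.Agent.BEL.H65
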