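import Pool.Agent.BEL.StmtsQ
import Pool.Agent.Helper91_BEL.XID
import Pool.Agent.Helper65_BEL.CTI

/-!
# Squad BEL, row WSU: weak-strong comparison
-/

namespace Pool.Agent.BEL.H65

open Set Filter Topology MeasureTheory
open scoped InnerProductSpace ENNReal NNReal

noncomputable section

variable {X : Type} [MeasurableSpace X] {μ : Measure X}

lemma gf_mul_self (a al s : ℝ) (hal : 0 < al) : gf a al s * s = a * |s| ^ (al + 2) := by
  unfold gf
  have h1 : |s| ^ (al + 2) = |s| ^ al * (s * s) := by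
    rw [show s * s = |s| * |s| from (abs_mul_abs_self s).symm]
    rcases eq_or_ne s 0 with h0 | h0
    · subst h0
      simp only [abs_zero, mul_zero]
      exact Real.zero_rpow (by linarith)
    · have h2 : 0 < |s| := abs_pos.2 h0
      rw [Real.rpow_add h2]
      have h3 : |s| ^ (2 : ℝ) = |s| * |s| := by
        rw [Real.rpow_two, sq]
      rw [h3]
  rw [h1]
  ring

lemma dis_eq (q : ℝ) (z2 : ℝ → Lp ℝ 2 μ) (s : ℝ) (h : DisE μ q z2 s < ⊤) :
    Integrable (fun x => |z2 s x| ^ q) μ ∧ ∫ x, |z2 s x| ^ q ∂μ = Dis μ q z2 s := by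
  have hm : AEStronglyMeasurable (fun x => |z2 s x| ^ q) μ :=
    ((Lp.aestronglyMeasurable (z2 s)).norm.aemeasurable.pow_const q).aestronglyMeasurable
  have h0 : 0 ≤ᵐ[μ] fun x => |z2 s x| ^ q :=
    Eventually.of_forall fun x => Real.rpow_nonneg (abs_nonneg _) _
  constructor
  · refine ⟨hm, ?_⟩
    rw [hasFiniteIntegral_iff_ofReal h0]
    exact h
  · rw [integral_eq_lintegral_of_nonneg_ae h0 hm]
    rfl

/-- The pointwise (in time) inequality. -/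
lemma wsu_point [IsFiniteMeasure μ] (hWpi : WpiStmt) (a al l K p M C : ℝ) (ha : 0 < a)
    (hal : 0 < al) (hl : 0 < l) (hK : 0 < K) (hp : al + 2 < p) (hC0 : 0 < C)
    (R : Lp ℝ 2 μ →L[ℝ] Lp ℝ 2 μ)
    (hC : ∀ z, MemLp (R z) (ENNReal.ofReal p) μ ∧ ∫ x, |R z x| ^ p ∂μ ≤ (C * ‖z‖) ^ p)
    (z2 : ℝ → Lp ℝ 2 μ) (s : ℝ) (hD : DisE μ (al + 2) z2 s < ⊤) (v w : Lp ℝ 2 μ)
    (hv : v = R w) (hw : ‖w‖ ≤ M)
    (h1 : Integrable (fun x => gl a al l (v x) * v x) μ)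
    (h2 : Integrable (fun x => gl a al l (v x) * z2 s x) μ) :
    -(a * (K ^ (-(al + 1)) * Dis μ (al + 2) z2 s + (K + 1) * (l ^ (al + 2 - p) * (C * M) ^ p))) ≤
      a * Dis μ (al + 2) z2 s + ∫ x, gl a al l (v x) * v x ∂μ -
        ∫ x, gf a al (z2 s x) * v x ∂μ - ∫ x, gl a al l (v x) * z2 s x ∂μ := by
  obtain ⟨hDi, hDe⟩ := dis_eq (al + 2) z2 s hD
  obtain ⟨Ch, hCh0, hCh⟩ := H91.holder μ a al ha hal R ⟨p, hp, C, hC0, hC⟩
  have h3 : Integrable (fun x => gf a al (z2 s x) * v x) μ := by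
    rw [hv]
    exact (hCh (z2 s) hD w).1
  have h4 : Integrable (fun x => gf a al (z2 s x) * z2 s x) μ := by
    refine (hDi.const_mul a).congr (Eventually.of_forall fun x => ?_)
    exact (gf_mul_self a al _ hal).symm
  have hp0 : 0 < p := by linarith
  have h5 : Integrable (fun x => |v x| ^ p) μ := by
    rw [hv]
    have h6 := (hC w).1.integrable_norm_rpow (by
      rw [Ne, ENNReal.ofReal_eq_zero, not_le]; exact hp0) ENNReal.ofReal_ne_top
    rw [ENNReal.toReal_ofReal hp0.le] at h6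
    exact h6
  have hvp : ∫ x, |v x| ^ p ∂μ ≤ (C * M) ^ p := by
    rw [hv]
    refine (hC w).2.trans ?_
    exact Real.rpow_le_rpow (by positivity) (mul_le_mul_of_nonneg_left hw hC0.le) hp0.le
  have e1 : ∫ x, gf a al (z2 s x) * z2 s x ∂μ = a * Dis μ (al + 2) z2 s := by
    rw [← hDe, ← integral_const_mul]
    refine integral_congr_ae (Eventually.of_forall fun x => ?_)
    exact gf_mul_self a al _ hal
  have e2 : ∫ x, (gf a al (z2 s x) - gl a al l (v x)) * (z2 s x - v x) ∂μ =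
      a * Dis μ (al + 2) z2 s + ∫ x, gl a al l (v x) * v x ∂μ -
        ∫ x, gf a al (z2 s x) * v x ∂μ - ∫ x, gl a al l (v x) * z2 s x ∂μ := by
    have e3 : ∀ x, (gf a al (z2 s x) - gl a al l (v x)) * (z2 s x - v x) =
        ((gf a al (z2 s x) * z2 s x + gl a al l (v x) * v x) -
          gf a al (z2 s x) * v x) - gl a al l (v x) * z2 s x := fun x => by ring
    have i1 : Integrable (fun x => gf a al (z2 s x) * z2 s x + gl a al l (v x) * v x) μ :=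
      h4.add h1
    have i2 : Integrable (fun x => gf a al (z2 s x) * z2 s x + gl a al l (v x) * v x -
        gf a al (z2 s x) * v x) μ := i1.sub h3
    simp_rw [e3]
    rw [integral_sub i2 h2, integral_sub i1 h3, integral_add h4 h1, e1]
  rw [← e2]
  have e4 : ∫ x, -(a * (K ^ (-(al + 1)) * |z2 s x| ^ (al + 2) +
      (K + 1) * (l ^ (al + 2 - p) * |v x| ^ p))) ∂μ =
      -(a * (K ^ (-(al + 1)) * Dis μ (al + 2) z2 s +
        (K + 1) * (l ^ (al + 2 - p) * ∫ x, |v x| ^ p ∂μ))) := by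
    rw [integral_neg, integral_const_mul, integral_add (hDi.const_mul _)
      ((h5.const_mul _).const_mul _), integral_const_mul, integral_const_mul,
      integral_const_mul, hDe]
  have e5 : -(a * (K ^ (-(al + 1)) * Dis μ (al + 2) z2 s +
      (K + 1) * (l ^ (al + 2 - p) * (C * M) ^ p))) ≤
      -(a * (K ^ (-(al + 1)) * Dis μ (al + 2) z2 s +
        (K + 1) * (l ^ (al + 2 - p) * ∫ x, |v x| ^ p ∂μ))) := by
    have hlp : 0 ≤ l ^ (al + 2 - p) := Real.rpow_nonneg hl.le _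
    gcongr
  refine e5.trans ?_
  rw [← e4]
  refine integral_mono_ae ?_ ?_ (Eventually.of_forall fun x => ?_)
  · exact (((hDi.const_mul _).add ((h5.const_mul _).const_mul _)).const_mul _).neg
  · have e6 : (fun x => (gf a al (z2 s x) - gl a al l (v x)) * (z2 s x - v x)) =
        fun x => ((gf a al (z2 s x) * z2 s x + gl a al l (v x) * v x) -
          gf a al (z2 s x) * v x) - gl a al l (v x) * z2 s x := by
      funext x
      ring
    rw [e6]
    exact ((h4.add h1).sub h3).sub h2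
  · exact hWpi a al l K p (z2 s x) (v x) ha hal hl hK hp

/-- WSU. -/
theorem wsu (hWpi : WpiStmt) (hXid : XidStmt) (hGrq : GrqStmt) (hFlp : FlpStmt) (hReg : RegStmt)
    (hGlp : GlpStmt) (hNem : NemStmt) (hNeb : NebStmt) (hUen : UenStmt) : WsuStmt := by
  intro X _ μ _ a al b om R W Js hc hi Z S hL z1 z2 hs J V hJ t ht
  have ha := hc.a_pos
  have hal := hc.al_pos
  have hom := hi.pos
  obtain ⟨hW0, -, hWn, -, -, -, -, -⟩ := hGrq (Lp ℝ 2 μ) ℕ b om W hc.grp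
  obtain ⟨-, hlip, hmono, hg0, -⟩ := hGlp a al ha hal
  obtain ⟨hU1, hU2⟩ := hUen X μ a al b om ha hal hi z1 z2 hs
  obtain ⟨p, hp, C, hC0, hC⟩ := hc.emb
  have hp0 : 0 < p := by linarith
  -- `P2 V` is bounded
  have hPJ : PJ b J (P2 V) = P2 V := by
    rw [PJ_apply]
    have h1 : HasSum (fun j => ⟪b j, P2 V⟫_ℝ • b j) (P2 V) := by
      have := b.hasSum_repr (P2 V)
      simpa only [HilbertBasis.repr_apply_apply] using this
    have h2 : HasSum (fun j => ⟪b j, P2 V⟫_ℝ • b j) (∑ j ∈ J, ⟪b j, P2 V⟫_ℝ • b j) :=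
      hasSum_sum_of_ne_finset_zero fun j hj => by rw [(hJ j hj).2, zero_smul]
    exact h2.unique h1
  obtain ⟨C1, hC1⟩ := hi.i1
  have hA : ∀ᵐ x ∂μ, ∑ j ∈ J, (b j x) ^ 2 ≤ C1 * ((J.sup id + 1 : ℕ) : ℝ) := by
    filter_upwards [hC1 (J.sup id + 1)] with x hx
    refine le_trans ?_ hx
    refine Finset.sum_le_sum_of_subset_of_nonneg ?_ fun _ _ _ => sq_nonneg _
    intro j hj
    exact Finset.mem_range.2 (Nat.lt_succ_of_le (Finset.le_sup (f := id) hj))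
  have hB := bdd_of_PJ b J _ hA (P2 V) hPJ
  let B : ℝ := √(C1 * ((J.sup id + 1 : ℕ) : ℝ)) * ‖P2 V‖
  have hB0 : 0 ≤ B := by positivity
  let M : ℝ := Real.sqrt (∑ j ∈ J, om j ^ 2 * (⟪b j, P1 V⟫_ℝ ^ 2 + ⟪b j, P2 V⟫_ℝ ^ 2)) +
    a * B ^ al * ‖P2 V‖
  have hM : ∀ n : ℕ, ∀ s, 0 ≤ s → ∃ w : Lp ℝ 2 μ, P2 (W s (Z n V s)) = R w ∧ ‖w‖ ≤ M := by
    intro n s hs0
    have hn : (0 : ℝ) ≤ n := Nat.cast_nonneg n
    obtain ⟨-, hnl, hn0, -, -, hmon⟩ := hNem X μ (gl a al n) _ (hlip n hn) (hg0 n)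
    obtain ⟨w, hw1, hw2⟩ := hReg (Lp ℝ 2 μ) ℕ b om W R (nem μ (gl a al n)) _ V J (Z n V)
      hc.grp hc.isr hom hnl (hmon (hmono n hn)) hn0 hJ (hL.fl n V) s hs0
    refine ⟨w, hw1, hw2.trans ?_⟩
    exact add_le_add le_rfl (hNeb X μ a al B n (P2 V) ha hal hB0 hn hB)
  have hM0 : 0 ≤ M := by positivity
  have hIcc : uIcc 0 t ⊆ Ici (0:ℝ) := by
    intro s hs1
    rw [uIcc_of_le ht] at hs1
    exact hs1.1
  have hae : ∀ᵐ s ∂(volume.restrict (Icc (0:ℝ) t)), DisE μ (al + 2) z2 s < ⊤ :=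
    ae_restrict_of_ae_restrict_of_subset (fun s hs1 => hs1.1) hU2
  have hDi := (hU1 0 t le_rfl ht).1
  -- the main inequality
  have key : ∀ n : ℕ, 1 ≤ n → ∀ K : ℝ, 0 < K →
      ‖WithLp.toLp 2 (z1 t, z2 t) - W t (Z n V t)‖ ^ 2 ≤
      ‖WithLp.toLp 2 (z1 0, z2 0) - V‖ ^ 2 + 2 * a * (K ^ (-(al + 1)) *
        (∫ r in (0:ℝ)..t, Dis μ (al + 2) z2 r) +
        (K + 1) * ((n : ℝ) ^ (al + 2 - p) * (C * M) ^ p) * t) := by
    intro n hn1 K hK
    have hl : (0 : ℝ) < n := by exact_mod_cast hn1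
    obtain ⟨-, hnl, hn0, hin, hint, hmon⟩ := hNem X μ (gl a al n) _ (hlip n hl.le) (hg0 n)
    obtain ⟨hvc, hFc, -, -, hen⟩ := hFlp (Lp ℝ 2 μ) ℕ b om W (nem μ (gl a al n)) _ hc.grp hnl
      (hmon (hmono n hl.le)) hn0 V V (Z n V) (Z n V) (hL.fl n V) (hL.fl n V)
    obtain ⟨hXi, hXe⟩ := hXid X μ a al b om R W Js hc hi z1 z2 hs n M V (Z n V) hl (hL.fl n V)
      (hM n) t ht
    have h1 := (hU1 0 t le_rfl ht).2
    have h2 := hen 0 t
    have hI2 : IntervalIntegrable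
        (fun s => ⟪z2 s, nem μ (gl a al n) (P2 (W s (Z n V s)))⟫_ℝ) volume 0 t :=
      ((hs.c2.mono hIcc).inner hFc.continuousOn).intervalIntegrable
    have hI3 : IntervalIntegrable
        (fun s => ⟪nem μ (gl a al n) (P2 (W s (Z n V s))), P2 (W s (Z n V s))⟫_ℝ) volume 0 t :=
      (hFc.inner hvc).intervalIntegrable 0 t
    have hlow : ∫ s in (0:ℝ)..t, -(a * (K ^ (-(al + 1)) * Dis μ (al + 2) z2 s +
        (K + 1) * ((n : ℝ) ^ (al + 2 - p) * (C * M) ^ p))) ≤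
        ∫ s in (0:ℝ)..t, (a * Dis μ (al + 2) z2 s +
          ⟪nem μ (gl a al n) (P2 (W s (Z n V s))), P2 (W s (Z n V s))⟫_ℝ -
          (∫ y, gf a al (z2 s y) * P2 (W s (Z n V s)) y ∂μ) -
          ⟪z2 s, nem μ (gl a al n) (P2 (W s (Z n V s)))⟫_ℝ) := by
      refine intervalIntegral.integral_mono_ae_restrict ht ?_ ?_ ?_
      · exact (((hDi.const_mul _).add intervalIntegrable_const).const_mul _).neg
      · exact (((hDi.const_mul a).add hI3).sub hXi).sub hI2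
      · filter_upwards [hae, ae_restrict_mem measurableSet_Icc] with s hsD hst
        obtain ⟨w, hw1, hw2⟩ := hM n s hst.1
        have h3 := wsu_point hWpi a al n K p M C ha hal hl hK hp hC0 R hC z2 s hsD
          (P2 (W s (Z n V s))) w hw1 hw2 (hint _ _) (hint _ _)
        rw [real_inner_comm (nem μ (gl a al n) (P2 (W s (Z n V s)))) (z2 s), hin, hin]
        exact h3
    have e1 : ∫ s in (0:ℝ)..t, -(a * (K ^ (-(al + 1)) * Dis μ (al + 2) z2 s +
        (K + 1) * ((n : ℝ) ^ (al + 2 - p) * (C * M) ^ p))) =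
        -(a * (K ^ (-(al + 1)) * (∫ s in (0:ℝ)..t, Dis μ (al + 2) z2 s) +
          (K + 1) * ((n : ℝ) ^ (al + 2 - p) * (C * M) ^ p) * t)) := by
      rw [intervalIntegral.integral_neg, intervalIntegral.integral_const_mul,
        intervalIntegral.integral_add (hDi.const_mul _) intervalIntegrable_const,
        intervalIntegral.integral_const_mul, intervalIntegral.integral_const, smul_eq_mul,
        sub_zero, mul_comm t]
    have e2 : ∫ s in (0:ℝ)..t, (a * Dis μ (al + 2) z2 s +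
          ⟪nem μ (gl a al n) (P2 (W s (Z n V s))), P2 (W s (Z n V s))⟫_ℝ -
          (∫ y, gf a al (z2 s y) * P2 (W s (Z n V s)) y ∂μ) -
          ⟪z2 s, nem μ (gl a al n) (P2 (W s (Z n V s)))⟫_ℝ) =
        a * (∫ s in (0:ℝ)..t, Dis μ (al + 2) z2 s) +
          (∫ s in (0:ℝ)..t,
            ⟪nem μ (gl a al n) (P2 (W s (Z n V s))), P2 (W s (Z n V s))⟫_ℝ) -
          (∫ s in (0:ℝ)..t, ∫ y, gf a al (z2 s y) * P2 (W s (Z n V s)) y ∂μ) -
          ∫ s in (0:ℝ)..t, ⟪z2 s, nem μ (gl a al n) (P2 (W s (Z n V s)))⟫_ℝ := by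
      rw [intervalIntegral.integral_sub (((hDi.const_mul a).add hI3).sub hXi) hI2,
        intervalIntegral.integral_sub ((hDi.const_mul a).add hI3) hXi,
        intervalIntegral.integral_add (hDi.const_mul a) hI3,
        intervalIntegral.integral_const_mul]
    rw [e1, e2] at hlow
    have n1 : ‖WithLp.toLp 2 (z1 t, z2 t)‖ ^ 2 = enr μ z1 z2 t :=
      WithLp.prod_norm_sq_eq_of_L2 (WithLp.toLp 2 (z1 t, z2 t))
    have n2 : ‖WithLp.toLp 2 (z1 0, z2 0)‖ ^ 2 = enr μ z1 z2 0 :=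
      WithLp.prod_norm_sq_eq_of_L2 (WithLp.toLp 2 (z1 0, z2 0))
    have n3 : ⟪WithLp.toLp 2 (z1 t, z2 t), W t (Z n V t)⟫_ℝ =
        ⟪z1 t, P1 (W t (Z n V t))⟫_ℝ + ⟪z2 t, P2 (W t (Z n V t))⟫_ℝ := rfl
    have n4 : ⟪WithLp.toLp 2 (z1 0, z2 0), V⟫_ℝ = ⟪z1 0, P1 V⟫_ℝ + ⟪z2 0, P2 V⟫_ℝ := rfl
    have n5 : ‖W t (Z n V t)‖ = ‖Z n V t‖ := hWn t _
    have n6 : Z n V 0 = V := (hL.fl n V).z0
    rw [n6] at h2
    rw [norm_sub_sq_real, norm_sub_sq_real, n1, n2, n3, n4, n5, hXe]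
    linarith
  -- the limits
  have hlim : Tendsto (fun n : ℕ => W t (Z n V t)) atTop (𝓝 (S t V)) :=
    (hL.lim V t).tendsto_at ⟨ht, le_rfl⟩
  have hl1 : Tendsto (fun n : ℕ => ‖WithLp.toLp 2 (z1 t, z2 t) - W t (Z n V t)‖ ^ 2) atTop
      (𝓝 (‖WithLp.toLp 2 (z1 t, z2 t) - S t V‖ ^ 2)) :=
    ((tendsto_const_nhds.sub hlim).norm).pow 2
  have hl2 : Tendsto (fun n : ℕ => (n : ℝ) ^ (al + 2 - p)) atTop (𝓝 0) := by
    have h1 := (tendsto_rpow_neg_atTop (y := p - (al + 2)) (by linarith)).comp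
      (tendsto_natCast_atTop_atTop (R := ℝ))
    refine h1.congr fun n => ?_
    show (n : ℝ) ^ (-(p - (al + 2))) = _
    rw [neg_sub]
  have key2 : ∀ K : ℝ, 0 < K → ‖WithLp.toLp 2 (z1 t, z2 t) - S t V‖ ^ 2 ≤
      ‖WithLp.toLp 2 (z1 0, z2 0) - V‖ ^ 2 + 2 * a * (K ^ (-(al + 1)) *
        (∫ r in (0:ℝ)..t, Dis μ (al + 2) z2 r)) := by
    intro K hK
    have hr : Tendsto (fun n : ℕ => ‖WithLp.toLp 2 (z1 0, z2 0) - V‖ ^ 2 +
        2 * a * (K ^ (-(al + 1)) * (∫ r in (0:ℝ)..t, Dis μ (al + 2) z2 r) +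
        (K + 1) * ((n : ℝ) ^ (al + 2 - p) * (C * M) ^ p) * t)) atTop
        (𝓝 (‖WithLp.toLp 2 (z1 0, z2 0) - V‖ ^ 2 + 2 * a * (K ^ (-(al + 1)) *
          (∫ r in (0:ℝ)..t, Dis μ (al + 2) z2 r) + (K + 1) * (0 * (C * M) ^ p) * t))) :=
      tendsto_const_nhds.add ((tendsto_const_nhds.add
        (((hl2.mul_const _).const_mul _).mul_const _)).const_mul _)
    have h1 := le_of_tendsto_of_tendsto hl1 hr
      ((eventually_ge_atTop 1).mono fun n hn => key n hn K hK)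
    simpa using h1
  have hl3 : Tendsto (fun K : ℝ => ‖WithLp.toLp 2 (z1 0, z2 0) - V‖ ^ 2 +
      2 * a * (K ^ (-(al + 1)) * (∫ r in (0:ℝ)..t, Dis μ (al + 2) z2 r))) atTop
      (𝓝 (‖WithLp.toLp 2 (z1 0, z2 0) - V‖ ^ 2 +
        2 * a * (0 * (∫ r in (0:ℝ)..t, Dis μ (al + 2) z2 r)))) :=
    tendsto_const_nhds.add
      (((tendsto_rpow_neg_atTop (y := al + 1) (by linarith)).mul_const _).const_mul _)
  have h9 := ge_of_tendsto hl3 ((eventually_gt_atTop 0).mono fun K hK => key2 K hK)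
  rw [zero_mul, mul_zero, add_zero] at h9
  exact le_of_sq_le_sq h9 (norm_nonneg _)

end

end Pool.Agent.BEL.H65
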