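import Pool.Agent.BEL.Defs2

/-!
# Squad BEL, row FIN2: the result (with the stronger second part), from the core and the PDE part
-/

namespace Pool.Agent.BEL.H65

open Set Filter Topology MeasureTheory
open scoped InnerProductSpace ENNReal
open Pool.Agent.BE01

noncomputable section

variable {d : ℕ}

lemma VV_closed2 (Ω : Set (En d)) : IsClosed (VV Ω : Set (Lp (En d) 2 (mu Ω))) :=
  Submodule.isClosed_topologicalClosure _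

lemma fin2_aux (hTrl : TrlStmt) (hCore : Core2Stmt) (Ω : Set (En d)) (a α : ℝ) (hd : 0 < d)
    (hΩ : Dom Ω) (ha : 0 < a) (hα : 0 < α) (hlt : ((d : ℝ) - 2) * α < 4)
    (ι : VV Ω →L[ℝ] Lp ℝ 2 (mu Ω)) (hE : Emb2 Ω ι) (hG : Grf Ω ι)
    (b : HilbertBasis ℕ ℝ (Lp ℝ 2 (mu Ω))) (e : HilbertBasis ℕ ℝ (VV Ω)) (om : ℕ → ℝ)
    (hS : Spec Ω ι b e om) (hI : Inp (mu Ω) α b om) :
    ∃ c C g : ℝ, 0 < c ∧ 0 < C ∧ 0 < g ∧
    (∀ (u₀ v₀ : Lp ℝ 2 (mu Ω)) (G₀ : Lp (En d) 2 (mu Ω)) (ε : ℝ), (u₀, G₀) ∈ H10 Ω → 0 < ε →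
      ∃ (u v : ℝ → Lp ℝ 2 (mu Ω)) (G : ℝ → Lp (En d) 2 (mu Ω)), EnSol Ω a α u v G ∧
        ‖u 0 - u₀‖ < ε ∧ ‖G 0 - G₀‖ < ε ∧ ‖v 0 - v₀‖ < ε ∧
        (∃ M : ℝ, ∀ t, 0 ≤ t → energy Ω v G t ≤ M * (1 + t) ^ (-(2 / α))) ∧
        (∀ᶠ t : ℝ in atTop, energy Ω v G t ≤ C * t ^ (-(2 / α))) ∧
        LowLog {t | c * t ^ (-(2 / α)) ≤ energy Ω v G t} g) ∧
    ∃ D : Set (Lp ℝ 2 (mu Ω) × Lp (En d) 2 (mu Ω) × Lp ℝ 2 (mu Ω)), IsGδ D ∧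
      D ⊆ {P | (P.1, P.2.1) ∈ H10 Ω} ∧ {P | (P.1, P.2.1) ∈ H10 Ω} ⊆ closure D ∧
      ∀ P ∈ D, ∃ (u v : ℝ → Lp ℝ 2 (mu Ω)) (G : ℝ → Lp (En d) 2 (mu Ω)), EnSol Ω a α u v G ∧
        (u 0, G 0, v 0) = P ∧ (∀ᶠ t : ℝ in atTop, energy Ω v G t ≤ C * t ^ (-(2 / α))) ∧
        UppLog {t | c * t ^ (-(2 / α)) ≤ energy Ω v G t} g := by
  obtain ⟨c, C, g, hc, hC, hg, h1, D0, hD0, hDd, h2⟩ := hCore (En d) (mu Ω) a α b om ha hα hI
  refine ⟨c, C, g, hc, hC, hg, ?_, ?_⟩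
  · intro u0 v0 G0 ε hu hε
    obtain ⟨hGV, hu0⟩ := (hG u0 G0).1 hu
    have hn : 0 < ‖ι‖ + 1 := by positivity
    have hε' : 0 < min ε (ε / (‖ι‖ + 1)) := lt_min hε (by positivity)
    obtain ⟨z1, z2, hz, hx, hy, hM, hCt, hlog⟩ :=
      h1 ((UU b e).symm ⟨G0, hGV⟩) v0 (min ε (ε / (‖ι‖ + 1))) hε'
    obtain ⟨hsol, hen⟩ := hTrl d Ω ι b e om a α z1 z2 hd hΩ hE hG hS ha hα hlt hz
    have hx2 : ‖UU b e (z1 0) - ⟨G0, hGV⟩‖ < min ε (ε / (‖ι‖ + 1)) := by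
      have h3 : UU b e (z1 0) - ⟨G0, hGV⟩ = UU b e (z1 0 - (UU b e).symm ⟨G0, hGV⟩) := by
        rw [map_sub, LinearIsometryEquiv.apply_symm_apply]
      rw [h3, LinearIsometryEquiv.norm_map]
      exact hx
    refine ⟨_, _, _, hsol, ?_, ?_, ?_, ?_, ?_, ?_⟩
    · show ‖ι (UU b e (z1 0)) - u0‖ < ε
      rw [hu0, ← map_sub]
      have h4 : ‖ι‖ * ‖UU b e (z1 0) - ⟨G0, hGV⟩‖ ≤ (‖ι‖ + 1) * ‖UU b e (z1 0) - ⟨G0, hGV⟩‖ :=
        mul_le_mul_of_nonneg_right (by linarith) (norm_nonneg _)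
      have h5 : (‖ι‖ + 1) * ‖UU b e (z1 0) - ⟨G0, hGV⟩‖ < (‖ι‖ + 1) * (ε / (‖ι‖ + 1)) :=
        mul_lt_mul_of_pos_left (lt_of_lt_of_le hx2 (min_le_right _ _)) hn
      have h6 : (‖ι‖ + 1) * (ε / (‖ι‖ + 1)) = ε := by field_simp
      exact lt_of_le_of_lt (ι.le_opNorm _) (lt_of_le_of_lt h4 (h5.trans_eq h6))
    · show ‖((UU b e (z1 0) : VV Ω) : Lp (En d) 2 (mu Ω)) - G0‖ < ε
      exact lt_of_lt_of_le hx2 (min_le_left _ _)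
    · exact lt_of_lt_of_le hy (min_le_left _ _)
    · obtain ⟨M, hM⟩ := hM
      exact ⟨M, fun t ht => by rw [hen]; exact hM t ht⟩
    · filter_upwards [hCt] with t ht
      rw [hen]
      exact ht
    · have h7 : {t | c * t ^ (-(2 / α)) ≤
          energy Ω z2 (fun t => ((UU b e (z1 t) : VV Ω) : Lp (En d) 2 (mu Ω))) t} =
          {t | c * t ^ (-(2 / α)) ≤ enr (mu Ω) z1 z2 t} := by
        ext t
        rw [Set.mem_ofPred_eq, Set.mem_ofPred_eq, hen]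
      rw [h7]
      exact hlog
  · have hcs : CompleteSpace (VV Ω) := (VV_closed2 Ω).completeSpace_coe
    let Q : Lp (En d) 2 (mu Ω) →L[ℝ] VV Ω := (VV Ω).orthogonalProjectionOnto
    have hQ : ∀ G : VV Ω, Q (G : Lp (En d) 2 (mu Ω)) = G :=
      fun G => Submodule.orthogonalProjectionOnto_mem_subspace_eq_self G
    let Ψ : Lp ℝ 2 (mu Ω) × Lp (En d) 2 (mu Ω) × Lp ℝ 2 (mu Ω) → Lp ℝ 2 (mu Ω) × Lp ℝ 2 (mu Ω) :=
      fun P => ((UU b e).symm (Q P.2.1), P.2.2)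
    have hΨ : Continuous Ψ := by
      refine Continuous.prodMk ?_ (continuous_snd.comp continuous_snd)
      exact (UU b e).symm.continuous.comp (Q.continuous.comp (continuous_fst.comp continuous_snd))
    let Θ : Lp ℝ 2 (mu Ω) × Lp ℝ 2 (mu Ω) → Lp ℝ 2 (mu Ω) × Lp (En d) 2 (mu Ω) × Lp ℝ 2 (mu Ω) :=
      fun x => (ι (UU b e x.1), ((UU b e x.1 : VV Ω) : Lp (En d) 2 (mu Ω)), x.2)
    have hΘ : Continuous Θ := by
      have h3 : Continuous fun x : Lp ℝ 2 (mu Ω) × Lp ℝ 2 (mu Ω) => UU b e x.1 :=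
        (UU b e).continuous.comp continuous_fst
      exact (ι.continuous.comp h3).prodMk ((continuous_subtype_val.comp h3).prodMk continuous_snd)
    have hΨΘ : ∀ x, Ψ (Θ x) = x := by
      intro x
      show ((UU b e).symm (Q ((UU b e x.1 : VV Ω) : Lp (En d) 2 (mu Ω))), x.2) = x
      rw [hQ, LinearIsometryEquiv.symm_apply_apply]
    have hΘΨ : ∀ P, (P.1, P.2.1) ∈ H10 Ω → Θ (Ψ P) = P := by
      rintro ⟨u, G, v⟩ hP
      obtain ⟨hGV, hu⟩ := (hG u G).1 hP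
      have h3 : Q G = ⟨G, hGV⟩ := hQ ⟨G, hGV⟩
      show (ι (UU b e ((UU b e).symm (Q G))),
        ((UU b e ((UU b e).symm (Q G)) : VV Ω) : Lp (En d) 2 (mu Ω)), v) = (u, G, v)
      rw [LinearIsometryEquiv.apply_symm_apply, h3, ← hu]
    have hΘH : ∀ x, ((Θ x).1, (Θ x).2.1) ∈ H10 Ω := by
      intro x
      exact (hG _ _).2 ⟨(UU b e x.1).2, rfl⟩
    refine ⟨{P | (P.1, P.2.1) ∈ H10 Ω} ∩ Ψ ⁻¹' D0, ?_, inter_subset_left, ?_, ?_⟩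
    · have hcl : IsClosed {P : Lp ℝ 2 (mu Ω) × Lp (En d) 2 (mu Ω) × Lp ℝ 2 (mu Ω) |
          (P.1, P.2.1) ∈ H10 Ω} :=
        isClosed_closure.preimage (continuous_fst.prodMk (continuous_fst.comp continuous_snd))
      exact hcl.isGδ.inter (hD0.preimage hΨ)
    · intro P hP
      have h3 : Θ '' D0 ⊆ {P | (P.1, P.2.1) ∈ H10 Ω} ∩ Ψ ⁻¹' D0 := by
        rintro _ ⟨x, hx, rfl⟩
        refine ⟨hΘH x, ?_⟩
        show Ψ (Θ x) ∈ D0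
        rw [hΨΘ]
        exact hx
      have h4 : Ψ P ∈ closure D0 := by rw [hDd.closure_eq]; trivial
      have h5 : Θ (Ψ P) ∈ closure (Θ '' D0) :=
        image_closure_subset_closure_image hΘ ⟨Ψ P, h4, rfl⟩
      rw [hΘΨ P hP] at h5
      exact closure_mono h3 h5
    · rintro P ⟨hP1, hP2⟩
      obtain ⟨z1, z2, hz, hz0, hCt, hfr⟩ := h2 (Ψ P) hP2
      obtain ⟨hsol, hen⟩ := hTrl d Ω ι b e om a α z1 z2 hd hΩ hE hG hS ha hα hlt hz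
      refine ⟨_, _, _, hsol, ?_, ?_, ?_⟩
      · have h6 : Θ (z1 0, z2 0) = P := by rw [hz0]; exact hΘΨ P hP1
        exact h6
      · filter_upwards [hCt] with t ht
        rw [hen]
        exact ht
      · have h7 : {t | c * t ^ (-(2 / α)) ≤
            energy Ω z2 (fun t => ((UU b e (z1 t) : VV Ω) : Lp (En d) 2 (mu Ω))) t} =
            {t | c * t ^ (-(2 / α)) ≤ enr (mu Ω) z1 z2 t} := by
          ext t
          rw [Set.mem_ofPred_eq, Set.mem_ofPred_eq, hen]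
        rw [h7]
        exact hfr

/-- FIN2. -/
theorem fin2 (hEmp : EmpStmt) (hEig : EigStmt) (hInp : InpStmt) (hTrl : TrlStmt)
    (hCore : Core2Stmt) : Fin2Stmt := by
  intro d Ω a α hd hΩ ha hα hlt
  obtain ⟨ι, hE, hG⟩ := hEmp d Ω hd hΩ
  obtain ⟨b, e, om, hS⟩ := hEig d Ω ι hd hΩ hE
  exact fin2_aux hTrl hCore Ω a α hd hΩ ha hα hlt ι hE hG b e om hS
    (hInp d Ω ι b e om α hd hΩ hE hS hα hlt)

end

end Pool.Agent.BEL.H65
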